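import Mathlib
import Pool.Agent.Helper923.PNT

set_option autoImplicit false

/-! # Integers free of the small primes outside a given set -/

namespace Pool.Agent.T2H53.GW

open Finset Filter Topology

open scoped Classical in
/-- the integers up to `M` all prime factors `≤ y` of which are in `D` -/
noncomputable def NQ (D : Finset ℕ) (y M : ℕ) : Finset ℕ :=
  (Icc 1 M).filter fun m => ∀ p : ℕ, p.Prime → p ≤ y → p ∣ m → p ∈ D

open scoped Classical in
/-- the integers up to `x` all prime factors of which are larger than `y` -/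
noncomputable def RR (y x : ℕ) : Finset ℕ :=
  (Icc 1 x).filter fun m => ∀ p : ℕ, p.Prime → p ∣ m → y < p

open scoped Classical in
/-- the integers up to `M` composed of primes in `D` -/
noncomputable def UU (D : Finset ℕ) (M : ℕ) : Finset ℕ :=
  (Icc 1 M).filter fun m => m ∈ Nat.factoredNumbers D

lemma NQ_sub (D : Finset ℕ) (y M : ℕ) :
    NQ D y M ⊆ (UU D M).biUnion fun u => (RR y (M / u)).image fun v => u * v := by
  classical
  intro m hm
  rw [NQ, mem_filter, mem_Icc] at hm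
  obtain ⟨⟨h1, hM⟩, h2⟩ := hm
  have hm0 : m ≠ 0 := by omega
  obtain ⟨u, v, huv, hu, hv⟩ : ∃ u v : ℕ, u * v = m ∧ u ∈ Nat.factoredNumbers D ∧
      ∀ p : ℕ, p.Prime → p ∣ v → p ∉ D := by
    refine ⟨(m.primeFactorsList.filter (· ∈ D)).prod, (m.primeFactorsList.filter (fun p => !decide (p ∈ D))).prod,
      ?_, Nat.prod_mem_factoredNumbers D m, ?_⟩
    · rw [← List.prod_append, List.Perm.prod_eq (List.filter_append_perm (· ∈ D) m.primeFactorsList),
        Nat.prod_primeFactorsList hm0]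
    · intro p hp hpv
      have h4 := _root_.mem_list_primes_of_dvd_prod hp.prime
        (fun q hq => (Nat.prime_of_mem_primeFactorsList (List.mem_of_mem_filter hq)).prime) hpv
      have h5 := List.of_mem_filter h4
      simpa using h5
  have hv0 : v ≠ 0 := by rintro rfl; simp at huv; omega
  have hu0 : u ≠ 0 := by rintro rfl; simp at huv; omega
  rw [mem_biUnion]
  refine ⟨u, ?_, ?_⟩
  · rw [UU, mem_filter, mem_Icc]
    refine ⟨⟨by omega, ?_⟩, hu⟩
    calc u ≤ u * v := Nat.le_mul_of_pos_right u (by omega)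
      _ = m := huv
      _ ≤ M := hM
  · rw [mem_image]
    refine ⟨v, ?_, huv⟩
    rw [RR, mem_filter, mem_Icc]
    refine ⟨⟨by omega, ?_⟩, ?_⟩
    · rw [Nat.le_div_iff_mul_le (by omega), mul_comm]
      omega
    · intro p hp hpv
      by_contra hc
      exact hv p hp hpv (h2 p hp (by omega) (huv ▸ hpv.mul_left u))

lemma card_NQ_le (D : Finset ℕ) (y M : ℕ) :
    (NQ D y M).card ≤ ∑ u ∈ UU D M, (RR y (M / u)).card := by
  classical
  exact (card_le_card (NQ_sub D y M)).trans (card_biUnion_le.trans (sum_le_sum fun u _ => card_image_le))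

/-- primes up to `x` -/
lemma card_primes (x : ℕ) : ((Icc 1 x).filter Nat.Prime).card = Nat.primeCounting x := by
  have h : (Icc 1 x).filter Nat.Prime = Nat.primesBelow (x + 1) := by
    ext p
    simp only [mem_filter, mem_Icc, Nat.mem_primesBelow]
    constructor
    · rintro ⟨⟨_, h2⟩, h3⟩; exact ⟨by omega, h3⟩
    · rintro ⟨h2, h3⟩; exact ⟨⟨h3.one_le, by omega⟩, h3⟩
  rw [h, Nat.primesBelow_card_eq_primeCounting', Nat.primeCounting]

lemma card_RR_le (y x M : ℕ) (hx : x ≤ M) (hM : M ≤ y ^ 3) (hy : 1 ≤ y) :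
    (RR y x).card ≤ 1 + (if y < x then Nat.primeCounting x else 0) +
      (if y ^ 2 < x then Nat.primeCounting (M / y) ^ 2 else 0) := by
  classical
  have hsub : RR y x ⊆ ({1} : Finset ℕ) ∪ (if y < x then (Icc 1 x).filter Nat.Prime else ∅) ∪
      (if y ^ 2 < x then ((((Icc 1 (M / y)).filter Nat.Prime) ×ˢ ((Icc 1 (M / y)).filter Nat.Prime)).image
        fun q => q.1 * q.2) else ∅) := by
    intro v hv
    rw [RR, mem_filter, mem_Icc] at hv
    obtain ⟨⟨h1, h2⟩, h3⟩ := hv
    by_cases hv1 : v = 1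
    · simp [hv1]
    by_cases hvp : v.Prime
    · have h4 : y < v := h3 v hvp dvd_rfl
      have h5 : y < x := by omega
      rw [mem_union, mem_union]
      left; right
      rw [if_pos h5, mem_filter, mem_Icc]
      exact ⟨⟨h1, h2⟩, hvp⟩
    · -- composite
      have hp := Nat.minFac_prime hv1
      set p := v.minFac with hpdef
      have hpv : p ∣ v := Nat.minFac_dvd v
      obtain ⟨w, hw⟩ := hpv
      have hyp : y < p := h3 p hp (Nat.minFac_dvd v)
      have hw1 : w ≠ 1 := by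
        rintro rfl
        rw [mul_one] at hw
        exact hvp (hw ▸ hp)
      have hw0 : 0 < w := Nat.pos_of_ne_zero (by rintro rfl; simp at hw; omega)
      have hwq : ∀ q : ℕ, q.Prime → q ∣ w → y < q := fun q hq hqw => h3 q hq (hw ▸ hqw.mul_left p)
      have hwp : w.Prime := by
        by_contra hc
        have hq := Nat.minFac_prime hw1
        obtain ⟨t, ht⟩ := Nat.minFac_dvd w
        have ht1 : t ≠ 1 := by
          rintro rfl
          rw [mul_one] at ht
          exact hc (ht ▸ hq)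
        have ht0 : 0 < t := Nat.pos_of_ne_zero (by rintro rfl; simp at ht; omega)
        have hr := Nat.minFac_prime ht1
        have h6 : y < w.minFac := hwq _ hq (Nat.minFac_dvd w)
        have h7 : y < t.minFac := hwq _ hr ((Nat.minFac_dvd t).trans ⟨w.minFac, by rw [mul_comm]; exact ht⟩)
        have h8 : t.minFac ≤ t := Nat.minFac_le ht0
        have h9 : y ^ 3 < v := by
          calc y ^ 3 = y * (y * y) := by ring
            _ < p * (w.minFac * t) := by
                apply Nat.mul_lt_mul'' hyp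
                exact Nat.mul_lt_mul'' h6 (by omega)
            _ = v := by rw [← ht, ← hw]
        omega
      have hyw : y < w := hwq w hwp dvd_rfl
      have h10 : y ^ 2 < x := by
        calc y ^ 2 = y * y := by ring
          _ < p * w := Nat.mul_lt_mul'' hyp hyw
          _ = v := hw.symm
          _ ≤ x := h2
      rw [mem_union]
      right
      rw [if_pos h10, mem_image]
      refine ⟨(p, w), ?_, hw.symm⟩
      rw [mem_product, mem_filter, mem_filter, mem_Icc, mem_Icc]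
      refine ⟨⟨⟨hp.one_le, ?_⟩, hp⟩, ⟨⟨hw0, ?_⟩, hwp⟩⟩
      · rw [Nat.le_div_iff_mul_le hy]
        calc p * y ≤ p * w := Nat.mul_le_mul_left _ hyw.le
          _ ≤ M := by omega
      · rw [Nat.le_div_iff_mul_le hy]
        calc w * y ≤ w * p := Nat.mul_le_mul_left _ hyp.le
          _ = p * w := mul_comm _ _
          _ ≤ M := by omega
  refine (card_le_card hsub).trans ((card_union_le _ _).trans ?_)
  refine Nat.add_le_add ((card_union_le _ _).trans ?_) ?_
  · refine Nat.add_le_add (by simp) ?_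
    split_ifs
    · rw [card_primes]
    · simp
  · split_ifs
    · refine card_image_le.trans ?_
      rw [card_product, card_primes, sq]
    · simp

/-! ## Sums over the integers composed of primes in `D` -/

/-- `n ↦ 1 / n` -/
noncomputable def g1 : ℕ →* ℝ where
  toFun n := (n : ℝ)⁻¹
  map_one' := by simp
  map_mul' a b := by push_cast; rw [mul_inv]

/-- `n ↦ 1 / √n` -/
noncomputable def g2 : ℕ →* ℝ where
  toFun n := (Real.sqrt n)⁻¹
  map_one' := by simp
  map_mul' a b := by push_cast; rw [Real.sqrt_mul (Nat.cast_nonneg a), mul_inv]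

lemma sum_UU_le (g : ℕ →* ℝ) (hg0 : ∀ n, 0 ≤ g n) (hg1 : ∀ p : ℕ, p.Prime → g p < 1) (D : Finset ℕ)
    (hD : ∀ p ∈ D, p.Prime) (V : Finset ℕ) (hV : ∀ u ∈ V, u ∈ Nat.factoredNumbers D) :
    ∑ u ∈ V, g u ≤ ∏ p ∈ D, (1 - g p)⁻¹ := by
  classical
  have h := (EulerProduct.summable_and_hasSum_factoredNumbers_prod_filter_prime_geometric (f := g)
    (fun {p} hp => by rw [Real.norm_of_nonneg (hg0 p)]; exact hg1 p hp) D).2
  have h1 := sum_le_hasSum (V.subtype (· ∈ Nat.factoredNumbers D)) (fun i _ => hg0 i) h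
  rw [Finset.filter_true_of_mem hD] at h1
  refine le_trans (le_of_eq ?_) h1
  rw [Finset.sum_subtype_of_mem (fun u => g u) hV]

lemma sqrt_inv_le {p : ℕ} (hp : 2 ≤ p) : (Real.sqrt p)⁻¹ ≤ 3 / 4 := by
  have h1 : (4 / 3 : ℝ) ≤ Real.sqrt p := by
    apply Real.le_sqrt_of_sq_le
    have : (2 : ℝ) ≤ p := by exact_mod_cast hp
    norm_num; linarith
  rw [inv_le_comm₀ (by linarith) (by norm_num)]
  norm_num; linarith

lemma prod_sqrt_le (D : Finset ℕ) (hD : ∀ p ∈ D, p.Prime) (B : ℝ)
    (hB : ∑ p ∈ D, (Real.sqrt p)⁻¹ ≤ B) : ∏ p ∈ D, (1 - g2 p)⁻¹ ≤ Real.exp (4 * B) := by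
  have h1 : ∀ p ∈ D, (1 - g2 p)⁻¹ ≤ Real.exp (4 * (Real.sqrt p)⁻¹) := by
    intro p hp
    have h2 := sqrt_inv_le (hD p hp).two_le
    have h0 : 0 ≤ (Real.sqrt p)⁻¹ := by positivity
    have h3 : g2 p = (Real.sqrt p)⁻¹ := rfl
    rw [h3]
    set t := (Real.sqrt p)⁻¹
    have h4 : (1 - t)⁻¹ ≤ 1 + 4 * t := by
      rw [inv_le_iff_one_le_mul₀ (by linarith)]
      nlinarith
    have h5 := Real.add_one_le_exp (4 * t)
    linarith
  calc ∏ p ∈ D, (1 - g2 p)⁻¹ ≤ ∏ p ∈ D, Real.exp (4 * (Real.sqrt p)⁻¹) := by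
        refine prod_le_prod (fun p hp => ?_) h1
        have h2 := sqrt_inv_le (hD p hp).two_le
        have h3 : g2 p = (Real.sqrt p)⁻¹ := rfl
        rw [h3]
        apply inv_nonneg.mpr; linarith
    _ = Real.exp (4 * ∑ p ∈ D, (Real.sqrt p)⁻¹) := by rw [← Real.exp_sum, Finset.mul_sum]
    _ ≤ Real.exp (4 * B) := Real.exp_le_exp.mpr (by linarith)

lemma one_le_prod (D : Finset ℕ) (hD : ∀ p ∈ D, p.Prime) : 1 ≤ ∏ p ∈ D, (1 - (p : ℝ)⁻¹)⁻¹ := by
  have h1 : ∏ _p ∈ D, (1 : ℝ) ≤ ∏ p ∈ D, (1 - (p : ℝ)⁻¹)⁻¹ := by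
    refine prod_le_prod (fun _ _ => by norm_num) fun p hp => ?_
    have h2 : (2 : ℝ) ≤ p := by exact_mod_cast (hD p hp).two_le
    have h3 : (p : ℝ)⁻¹ ≤ 1 / 2 := by
      rw [inv_eq_one_div]; exact one_div_le_one_div_of_le (by norm_num) h2
    have h4 : 0 < (p : ℝ)⁻¹ := by positivity
    rw [one_le_inv_iff₀]
    constructor <;> linarith
  simpa using h1

lemma prod_le_exp (D : Finset ℕ) (hD : ∀ p ∈ D, p.Prime) (B : ℝ)
    (hB : ∑ p ∈ D, (Real.sqrt p)⁻¹ ≤ B) : ∏ p ∈ D, (1 - (p : ℝ)⁻¹)⁻¹ ≤ Real.exp (4 * B) := by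
  refine le_trans (prod_le_prod (fun p hp => ?_) fun p hp => ?_) (prod_sqrt_le D hD B hB)
  · have h2 : (2 : ℝ) ≤ p := by exact_mod_cast (hD p hp).two_le
    have h3 : (p : ℝ)⁻¹ ≤ 1 / 2 := by
      rw [inv_eq_one_div]; exact one_div_le_one_div_of_le (by norm_num) h2
    apply inv_nonneg.mpr; linarith
  · have h3 : g2 p = (Real.sqrt p)⁻¹ := rfl
    have h2 := sqrt_inv_le (hD p hp).two_le
    have hp1 : (1 : ℝ) ≤ p := by exact_mod_cast (hD p hp).one_le
    have hs1 : (1 : ℝ) ≤ Real.sqrt p := by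
      rw [show (1 : ℝ) = Real.sqrt 1 by simp]; exact Real.sqrt_le_sqrt hp1
    have h4 : (p : ℝ)⁻¹ ≤ (Real.sqrt p)⁻¹ := by
      apply inv_anti₀ (by linarith)
      have := Real.mul_self_sqrt (show (0 : ℝ) ≤ p by linarith)
      nlinarith
    rw [h3]
    apply inv_anti₀ (by linarith)
    linarith

end Pool.Agent.T2H53.GW
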