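import Mathlib
import Pool.Agent.T2H53.GW.Count

set_option autoImplicit false

/-! # Integers free of the small primes outside a given set: asymptotic bound -/

namespace Pool.Agent.T2H53.GW

open Finset Filter Topology

lemma pi_le (η : ℝ) (hη : 0 < η) : ∀ᶠ x : ℝ in atTop,
    (Nat.primeCounting ⌊x⌋₊ : ℝ) ≤ (1 + η) * (x / Real.log x) := by
  have h := Pool.Agent.Helper923.PNT.pi_tendsto
  filter_upwards [h.eventually (eventually_lt_nhds (show (1 : ℝ) < 1 + η by linarith)),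
    eventually_gt_atTop (1 : ℝ)] with x hx h1
  have hl : 0 < Real.log x := Real.log_pos h1
  have hx0 : 0 < x := by linarith
  rw [div_lt_iff₀ hx0] at hx
  rw [← mul_div_assoc, le_div_iff₀ hl]
  linarith

lemma card_UU_le (D : Finset ℕ) (hD : ∀ p ∈ D, p.Prime) (B : ℝ)
    (hB : ∑ p ∈ D, (Real.sqrt p)⁻¹ ≤ B) (M : ℕ) :
    ((UU D M).card : ℝ) ≤ Real.sqrt M * Real.exp (4 * B) := by
  classical
  have h1 : ((UU D M).card : ℝ) ≤ ∑ u ∈ UU D M, Real.sqrt M * g2 u := by
    rw [card_eq_sum_ones]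
    push_cast
    refine sum_le_sum fun u hu => ?_
    rw [UU, mem_filter, mem_Icc] at hu
    have h2 : g2 u = (Real.sqrt u)⁻¹ := rfl
    have hu1 : (1 : ℝ) ≤ u := by exact_mod_cast hu.1.1
    have hu2 : (u : ℝ) ≤ M := by exact_mod_cast hu.1.2
    have h3 : 0 < Real.sqrt u := Real.sqrt_pos.mpr (by linarith)
    rw [h2, ← div_eq_mul_inv, le_div_iff₀ h3, one_mul]
    exact Real.sqrt_le_sqrt hu2
  refine h1.trans ?_
  rw [← Finset.mul_sum]
  refine mul_le_mul_of_nonneg_left ?_ (Real.sqrt_nonneg _)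
  refine le_trans (sum_UU_le g2 (fun n => ?_) (fun p hp => ?_) D hD _ fun u hu => ?_) (prod_sqrt_le D hD B hB)
  · exact inv_nonneg.mpr (Real.sqrt_nonneg _)
  · have := sqrt_inv_le hp.two_le
    have h2 : g2 p = (Real.sqrt p)⁻¹ := rfl
    rw [h2]; linarith
  · rw [UU, mem_filter] at hu; exact hu.2

/-- facts on `M` used in the bound -/
def Facts (κ δ E Uc : ℝ) (M : ℕ) : Prop :=
  1 < (M : ℝ) ∧ κ ^ 3 ≤ M ∧
  (∀ x : ℝ, (M : ℝ) / Uc ≤ x → (Nat.primeCounting ⌊x⌋₊ : ℝ) ≤ (1 + min (δ / 12) 1) * (x / Real.log x)) ∧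
  (∀ x : ℝ, Real.sqrt (M / κ) ≤ x → (Nat.primeCounting ⌊x⌋₊ : ℝ) ≤ 2 * (x / Real.log x)) ∧
  (Nat.primeCounting ⌊Real.sqrt (κ * M)⌋₊ : ℝ) ≤ 2 * (Real.sqrt (κ * M) / Real.log (Real.sqrt (κ * M))) ∧
  Real.log M ≤ (1 + min (δ / 12) 1) * (Real.log M - Real.log Uc) ∧
  Real.log M / 3 ≤ Real.log (Real.sqrt (M / κ)) ∧
  16 * κ ^ 2 * Real.log M ≤ δ * Real.log (Real.sqrt (κ * M)) ^ 2 ∧
  0 < Real.log (Real.sqrt (κ * M)) ∧
  E * Real.sqrt M ≤ δ / 4 * (M / Real.log M) ∧ 0 < Real.log M ∧ 0 < Real.log M - Real.log Uc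

lemma ev_facts (κ δ E Uc : ℝ) (hκ : 0 < κ) (hδ : 0 < δ) (hE : 0 < E) (hU : 1 ≤ Uc) :
    ∀ᶠ M : ℕ in atTop, Facts κ δ E Uc M := by
  have hU0 : 0 < Uc := by linarith
  have hM : Tendsto (fun M : ℕ => (M : ℝ)) atTop atTop := tendsto_natCast_atTop_atTop
  have hlog : Tendsto (fun M : ℕ => Real.log (M : ℝ)) atTop atTop := Real.tendsto_log_atTop.comp hM
  set η : ℝ := min (δ / 12) 1 with hη
  have hη0 : 0 < η := lt_min (by positivity) one_pos
  obtain ⟨X1, hX1⟩ := eventually_atTop.mp (pi_le η hη0)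
  obtain ⟨X2, hX2⟩ := eventually_atTop.mp (pi_le 1 one_pos)
  have t1 : Tendsto (fun M : ℕ => (M : ℝ) / Uc) atTop atTop := hM.atTop_div_const hU0
  have t2 : Tendsto (fun M : ℕ => Real.sqrt ((M : ℝ) / κ)) atTop atTop :=
    Real.tendsto_sqrt_atTop.comp (hM.atTop_div_const hκ)
  have t3 : Tendsto (fun M : ℕ => Real.sqrt (κ * (M : ℝ))) atTop atTop :=
    Real.tendsto_sqrt_atTop.comp (hM.const_mul_atTop hκ)
  have t4 : Tendsto (fun M : ℕ => Real.log (M : ℝ) / Real.sqrt M) atTop (𝓝 0) := by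
    have h := (isLittleO_log_rpow_atTop (show (0 : ℝ) < 1 / 2 by norm_num)).tendsto_div_nhds_zero
    have h2 := h.comp hM
    refine h2.congr fun M => ?_
    simp only [Function.comp]
    rw [Real.sqrt_eq_rpow]
  filter_upwards [hM.eventually_gt_atTop 1, hM.eventually_ge_atTop (κ ^ 3),
    t1.eventually_ge_atTop X1, t2.eventually_ge_atTop X2, t3.eventually_ge_atTop X2,
    hlog.eventually_ge_atTop ((1 + η) * Real.log Uc / η + Real.log Uc + 1),
    hlog.eventually_ge_atTop (3 * |Real.log κ| + 1),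
    hlog.eventually_ge_atTop (256 * κ ^ 2 / δ),
    t4.eventually (eventually_lt_nhds (show (0 : ℝ) < δ / (4 * E) by positivity))]
    with M h1 h2 h3 h4 h5 h6 h7 h8 h9
  have hM0 : (0 : ℝ) < M := by linarith
  have hL : 0 < Real.log (M : ℝ) := Real.log_pos h1
  have hlU : 0 ≤ Real.log Uc := Real.log_nonneg hU
  have e1 : Real.log (Real.sqrt ((M : ℝ) / κ)) = (Real.log M - Real.log κ) / 2 := by
    rw [Real.log_sqrt (by positivity), Real.log_div hM0.ne' hκ.ne']
  have e2 : Real.log (Real.sqrt (κ * (M : ℝ))) = (Real.log κ + Real.log M) / 2 := by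
    rw [Real.log_sqrt (by positivity), Real.log_mul hκ.ne' hM0.ne']
  have a1 := le_abs_self (Real.log κ)
  have a2 := neg_abs_le (Real.log κ)
  refine ⟨h1, h2, fun x hx => hX1 x (by linarith), fun x hx => ?_, ?_, ?_, ?_, ?_, ?_, ?_, hL, ?_⟩
  · have := hX2 x (by linarith); linarith
  · have := hX2 _ h5; linarith
  · have h10 : (1 + η) * Real.log Uc ≤ η * Real.log M := by
      have : (1 + η) * Real.log Uc / η ≤ Real.log M := by linarith
      rw [div_le_iff₀ hη0] at this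
      linarith
    nlinarith
  · rw [e1]; linarith
  · rw [e2]
    have h11 : Real.log M / 4 ≤ (Real.log κ + Real.log M) / 2 := by linarith
    have h12 : (Real.log M / 4) ^ 2 ≤ ((Real.log κ + Real.log M) / 2) ^ 2 :=
      pow_le_pow_left₀ (by positivity) h11 2
    have h13 : 256 * κ ^ 2 ≤ δ * Real.log M := by
      rw [div_le_iff₀ hδ] at h8
      linarith
    nlinarith
  · rw [e2]; linarith
  · have hs : 0 < Real.sqrt (M : ℝ) := Real.sqrt_pos.mpr hM0
    have hss := Real.mul_self_sqrt hM0.le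
    rw [div_lt_div_iff₀ hs (by positivity)] at h9
    rw [← mul_div_assoc, le_div_iff₀ hL]
    have h14 : E * Real.sqrt M * Real.log M = (Real.log M * (4 * E)) * Real.sqrt M / 4 := by ring
    rw [h14]
    calc (Real.log M * (4 * E)) * Real.sqrt M / 4 ≤ (δ * Real.sqrt M) * Real.sqrt M / 4 := by
          apply div_le_div_of_nonneg_right _ (by norm_num)
          exact mul_le_mul_of_nonneg_right h9.le hs.le
      _ = δ / 4 * M := by rw [mul_assoc, hss]; ring
  · have : 0 ≤ (1 + η) * Real.log Uc / η := by positivity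
    linarith

theorem NQ_bound (B κ δ : ℝ) (hκ : 0 < κ) (hδ : 0 < δ) : ∃ M₀ : ℕ, ∀ M : ℕ, M₀ ≤ M → ∀ y : ℕ,
    (M : ℝ) ≤ κ * (y : ℝ) ^ 2 → ∀ D : Finset ℕ, (∀ p ∈ D, p.Prime) → ∑ p ∈ D, (Real.sqrt p)⁻¹ ≤ B →
    ((NQ D y M).card : ℝ) ≤ (1 + δ) * ((M : ℝ) / Real.log M) * ∏ p ∈ D, (1 - (p : ℝ)⁻¹)⁻¹ := by
  classical
  set E : ℝ := Real.exp (4 * B) with hEdef
  have hE : 0 < E := Real.exp_pos _
  set Uc : ℝ := (24 * E / δ) ^ 2 + 1 with hUc
  have hU1 : 1 ≤ Uc := by rw [hUc]; nlinarith [sq_nonneg (24 * E / δ)]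
  have hU0 : 0 < Uc := by linarith
  obtain ⟨M₀, hM₀⟩ := eventually_atTop.mp (ev_facts κ δ E Uc hκ hδ hE hU1)
  refine ⟨M₀, fun M hM y hy D hD hDB => ?_⟩
  obtain ⟨f1, f2, f3, f4, f5, f6, f7, f8, f9, f10, f11, f12⟩ := hM₀ M hM
  set η : ℝ := min (δ / 12) 1 with hη
  have hη0 : 0 < η := lt_min (by positivity) one_pos
  have hη1 : η ≤ 1 := min_le_right _ _
  have hη2 : η ≤ δ / 12 := min_le_left _ _
  set F : ℝ := ∏ p ∈ D, (1 - (p : ℝ)⁻¹)⁻¹ with hF
  have hF1 : 1 ≤ F := one_le_prod D hD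
  have hM0 : (0 : ℝ) < M := by linarith
  have hy0 : 0 < y := by
    rcases Nat.eq_zero_or_pos y with h | h
    · have h2 : κ * ((y : ℕ) : ℝ) ^ 2 = 0 := by rw [h]; simp
      linarith
    · exact h
  have hyR : (0 : ℝ) < y := by exact_mod_cast hy0
  have hsy : Real.sqrt ((M : ℝ) / κ) ≤ y := by
    apply Real.sqrt_le_iff.mpr
    refine ⟨hyR.le, ?_⟩
    rw [div_le_iff₀ hκ]; linarith
  have hκy : κ ≤ y := by
    have h1 : κ ≤ Real.sqrt ((M : ℝ) / κ) := by
      apply Real.le_sqrt_of_sq_le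
      rw [le_div_iff₀ hκ]
      have h2 : κ ^ 2 * κ = κ ^ 3 := by ring
      rw [h2]; exact f2
    linarith
  have hy3 : M ≤ y ^ 3 := by
    have h1 : (M : ℝ) ≤ (y : ℝ) ^ 3 := by
      calc (M : ℝ) ≤ κ * (y : ℝ) ^ 2 := hy
        _ ≤ (y : ℝ) * (y : ℝ) ^ 2 := mul_le_mul_of_nonneg_right hκy (by positivity)
        _ = (y : ℝ) ^ 3 := by ring
    exact_mod_cast h1
  -- bound for one `u`
  set LM := Real.log (M : ℝ) with hLM
  have hML : 0 < (M : ℝ) / LM := by positivity
  have hB1 : ∀ u ∈ UU D M, ((if y < M / u then Nat.primeCounting (M / u) else 0 : ℕ) : ℝ) ≤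
      (1 + δ / 4) * (M / LM) * g1 u + 6 / Real.sqrt Uc * (M / LM) * g2 u := by
    intro u hu
    rw [UU, mem_filter, mem_Icc] at hu
    have hu1 : (1 : ℝ) ≤ u := by exact_mod_cast hu.1.1
    have hu0 : (0 : ℝ) < u := by linarith
    have hg1 : g1 u = (u : ℝ)⁻¹ := rfl
    have hg2 : g2 u = (Real.sqrt u)⁻¹ := rfl
    have hsu : 0 < Real.sqrt u := Real.sqrt_pos.mpr hu0
    have hsU : 0 < Real.sqrt Uc := Real.sqrt_pos.mpr hU0
    have hn1 : 0 ≤ (1 + δ / 4) * (M / LM) * g1 u := by rw [hg1]; positivity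
    have hn2 : 0 ≤ 6 / Real.sqrt Uc * (M / LM) * g2 u := by rw [hg2]; positivity
    split_ifs with hyu
    · have hfl : M / u = ⌊(M : ℝ) / u⌋₊ := (Nat.floor_div_eq_div M u).symm
      rw [hfl]
      rcases le_or_gt (u : ℝ) Uc with h | h
      · -- small `u`
        have h1 := f3 ((M : ℝ) / u) (div_le_div_of_nonneg_left hM0.le hu0 h)
        have h2 : Real.log ((M : ℝ) / u) = LM - Real.log u := Real.log_div hM0.ne' hu0.ne'
        have h3 : Real.log u ≤ Real.log Uc := Real.log_le_log hu0 h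
        have h4 : 0 < Real.log ((M : ℝ) / u) := by rw [h2]; linarith
        have h5 : LM ≤ (1 + η) * Real.log ((M : ℝ) / u) := by
          rw [h2]; nlinarith
        have h6 : (1 + η) * ((M : ℝ) / u / Real.log ((M : ℝ) / u)) ≤ (1 + δ / 4) * (M / LM) * g1 u := by
          rw [hg1]
          have h7 : (1 + η) * ((M : ℝ) / u / Real.log ((M : ℝ) / u)) ≤ (1 + η) * ((1 + η) * ((M : ℝ) / u / LM)) := by
            apply mul_le_mul_of_nonneg_left _ (by linarith)
            rw [← mul_div_assoc, div_le_div_iff₀ h4 f11]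
            have : (0 : ℝ) ≤ (M : ℝ) / u := by positivity
            nlinarith
          refine h7.trans ?_
          have h8 : (1 + η) * ((1 + η) * ((M : ℝ) / u / LM)) = (1 + η) ^ 2 * ((M / LM) * (u : ℝ)⁻¹) := by
            rw [div_div, div_eq_mul_inv, div_eq_mul_inv, mul_inv]; ring
          rw [h8, mul_assoc]
          apply mul_le_mul_of_nonneg_right _ (by positivity)
          nlinarith
        linarith
      · -- large `u`
        have h1 : (y : ℝ) ≤ (M : ℝ) / u := by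
          have h2 : (y : ℝ) < ((M / u : ℕ) : ℝ) := by exact_mod_cast hyu
          exact h2.le.trans Nat.cast_div_le
        have h3 := f4 ((M : ℝ) / u) (hsy.trans h1)
        have h4 : LM / 3 ≤ Real.log ((M : ℝ) / u) := by
          refine f7.trans (Real.log_le_log ?_ (hsy.trans h1))
          exact Real.sqrt_pos.mpr (by positivity)
        have h5 : 0 < Real.log ((M : ℝ) / u) := by linarith
        have h6 : 2 * ((M : ℝ) / u / Real.log ((M : ℝ) / u)) ≤ 6 / Real.sqrt Uc * (M / LM) * g2 u := by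
          rw [hg2]
          have h7 : (M : ℝ) / u / Real.log ((M : ℝ) / u) ≤ 3 * ((M : ℝ) / u / LM) := by
            rw [← mul_div_assoc, div_le_div_iff₀ h5 f11]
            have : (0 : ℝ) ≤ (M : ℝ) / u := by positivity
            nlinarith
          have h8 : (u : ℝ)⁻¹ ≤ (Real.sqrt Uc)⁻¹ * (Real.sqrt u)⁻¹ := by
            rw [← mul_inv]
            apply inv_anti₀ (by positivity)
            have h9 : Real.sqrt Uc ≤ Real.sqrt u := Real.sqrt_le_sqrt h.le
            have h10 := Real.mul_self_sqrt hu0.le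
            nlinarith
          have h9 : (M : ℝ) / u / LM = (M / LM) * (u : ℝ)⁻¹ := by
            rw [div_div, div_eq_mul_inv, div_eq_mul_inv, mul_inv]; ring
          have h11 := mul_le_mul_of_nonneg_left h8 hML.le
          calc 2 * ((M : ℝ) / u / Real.log ((M : ℝ) / u)) ≤ 2 * (3 * ((M : ℝ) / u / LM)) :=
                mul_le_mul_of_nonneg_left h7 (by norm_num)
            _ = 6 * ((M / LM) * (u : ℝ)⁻¹) := by rw [h9]; ring
            _ ≤ 6 * ((M / LM) * ((Real.sqrt Uc)⁻¹ * (Real.sqrt u)⁻¹)) :=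
                mul_le_mul_of_nonneg_left h11 (by norm_num)
            _ = 6 / Real.sqrt Uc * (M / LM) * (Real.sqrt u)⁻¹ := by
                rw [div_eq_mul_inv 6]; ring
        linarith
    · push_cast; linarith
  -- the three parts
  have hA := card_UU_le D hD B hDB M
  have hC : ∑ u ∈ UU D M, ((if y ^ 2 < M / u then Nat.primeCounting (M / y) ^ 2 else 0 : ℕ) : ℝ) ≤
      δ / 4 * (M / LM) := by
    have h1 : ∑ u ∈ UU D M, ((if y ^ 2 < M / u then Nat.primeCounting (M / y) ^ 2 else 0 : ℕ) : ℝ) =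
        ∑ u ∈ (UU D M).filter (fun u => y ^ 2 < M / u), ((Nat.primeCounting (M / y) : ℝ)) ^ 2 := by
      rw [sum_filter]
      refine sum_congr rfl fun u _ => ?_
      split_ifs <;> simp
    rw [h1, sum_const, nsmul_eq_mul]
    have h2 : (((UU D M).filter (fun u => y ^ 2 < M / u)).card : ℝ) ≤ κ := by
      have h3 : (UU D M).filter (fun u => y ^ 2 < M / u) ⊆ Icc 1 ⌊κ⌋₊ := by
        intro u hu
        rw [mem_filter, UU, mem_filter, mem_Icc] at hu
        obtain ⟨⟨⟨hu1, _⟩, _⟩, hu2⟩ := hu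
        rw [mem_Icc]
        refine ⟨hu1, Nat.le_floor ?_⟩
        have h4 : y ^ 2 * u ≤ M := by
          calc y ^ 2 * u ≤ (M / u) * u := Nat.mul_le_mul_right _ hu2.le
            _ ≤ M := Nat.div_mul_le_self M u
        have h5 : (y : ℝ) ^ 2 * u ≤ M := by exact_mod_cast h4
        have h6 : (0 : ℝ) < (y : ℝ) ^ 2 := by positivity
        nlinarith
      have h4 := card_le_card h3
      rw [Nat.card_Icc] at h4
      have h5 : (((UU D M).filter (fun u => y ^ 2 < M / u)).card : ℝ) ≤ ((⌊κ⌋₊ : ℕ) : ℝ) := by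
        exact_mod_cast (by omega : ((UU D M).filter (fun u => y ^ 2 < M / u)).card ≤ ⌊κ⌋₊)
      exact h5.trans (Nat.floor_le hκ.le)
    have h3 : (Nat.primeCounting (M / y) : ℝ) ≤ 2 * (Real.sqrt (κ * M) / Real.log (Real.sqrt (κ * M))) := by
      refine le_trans ?_ f5
      have h4 : M / y ≤ ⌊Real.sqrt (κ * M)⌋₊ := by
        apply Nat.le_floor
        refine le_trans Nat.cast_div_le ?_
        apply Real.le_sqrt_of_sq_le
        rw [div_pow, div_le_iff₀ (by positivity)]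
        nlinarith
      exact_mod_cast Nat.monotone_primeCounting h4
    have h4 : ((Nat.primeCounting (M / y) : ℝ)) ^ 2 ≤ 4 * (κ * M / Real.log (Real.sqrt (κ * M)) ^ 2) := by
      calc ((Nat.primeCounting (M / y) : ℝ)) ^ 2 ≤
            (2 * (Real.sqrt (κ * M) / Real.log (Real.sqrt (κ * M)))) ^ 2 :=
            pow_le_pow_left₀ (by positivity) h3 2
        _ = 4 * (κ * M / Real.log (Real.sqrt (κ * M)) ^ 2) := by
            rw [mul_pow, div_pow, Real.sq_sqrt (by positivity)]; norm_num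
    calc (((UU D M).filter (fun u => y ^ 2 < M / u)).card : ℝ) * ((Nat.primeCounting (M / y) : ℝ)) ^ 2
        ≤ κ * (4 * (κ * M / Real.log (Real.sqrt (κ * M)) ^ 2)) :=
          mul_le_mul h2 h4 (by positivity) hκ.le
      _ ≤ δ / 4 * (M / LM) := by
          have h5 : κ * (4 * (κ * M / Real.log (Real.sqrt (κ * M)) ^ 2)) =
            (4 * κ ^ 2 * M) / Real.log (Real.sqrt (κ * M)) ^ 2 := by ring
          rw [h5, ← mul_div_assoc, div_le_div_iff₀ (by positivity) f11]
          nlinarith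
  -- assembly
  have hG1 : ∑ u ∈ UU D M, g1 u ≤ F := by
    refine sum_UU_le g1 (fun n => ?_) (fun p hp => ?_) D hD _ fun u hu => ?_
    · exact inv_nonneg.mpr (Nat.cast_nonneg _)
    · have h2 : (1 : ℝ) < p := by exact_mod_cast hp.one_lt
      exact inv_lt_one_of_one_lt₀ h2
    · rw [UU, mem_filter] at hu; exact hu.2
  have hG2 : ∑ u ∈ UU D M, g2 u ≤ E := by
    refine le_trans (sum_UU_le g2 (fun n => ?_) (fun p hp => ?_) D hD _ fun u hu => ?_)
      (prod_sqrt_le D hD B hDB)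
    · exact inv_nonneg.mpr (Real.sqrt_nonneg _)
    · have := sqrt_inv_le hp.two_le
      have h2 : g2 p = (Real.sqrt p)⁻¹ := rfl
      rw [h2]; linarith
    · rw [UU, mem_filter] at hu; exact hu.2
  have hmain : ((NQ D y M).card : ℝ) ≤ ∑ u ∈ UU D M, ((1 : ℝ) +
      ((if y < M / u then Nat.primeCounting (M / u) else 0 : ℕ) : ℝ) +
      ((if y ^ 2 < M / u then Nat.primeCounting (M / y) ^ 2 else 0 : ℕ) : ℝ)) := by
    have h1 := card_NQ_le D y M
    have h2 : ∑ u ∈ UU D M, (RR y (M / u)).card ≤ ∑ u ∈ UU D M, (1 +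
      (if y < M / u then Nat.primeCounting (M / u) else 0) +
      (if y ^ 2 < M / u then Nat.primeCounting (M / y) ^ 2 else 0)) :=
      sum_le_sum fun u _ => card_RR_le y (M / u) M (Nat.div_le_self _ _) hy3 hy0
    have h3 := h1.trans h2
    have h4 : ((NQ D y M).card : ℝ) ≤ ((∑ u ∈ UU D M, (1 +
      (if y < M / u then Nat.primeCounting (M / u) else 0) +
      (if y ^ 2 < M / u then Nat.primeCounting (M / y) ^ 2 else 0)) : ℕ) : ℝ) := by exact_mod_cast h3
    refine h4.trans (le_of_eq ?_)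
    rw [Nat.cast_sum]
    refine sum_congr rfl fun u _ => ?_
    push_cast
    ring
  rw [sum_add_distrib, sum_add_distrib, sum_const, nsmul_eq_mul, mul_one] at hmain
  have hBs : ∑ u ∈ UU D M, ((if y < M / u then Nat.primeCounting (M / u) else 0 : ℕ) : ℝ) ≤
      (1 + δ / 4) * (M / LM) * F + δ / 4 * (M / LM) := by
    refine (sum_le_sum hB1).trans ?_
    rw [sum_add_distrib, ← mul_sum, ← mul_sum]
    refine add_le_add (mul_le_mul_of_nonneg_left hG1 (by positivity)) ?_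
    calc 6 / Real.sqrt Uc * (M / LM) * ∑ u ∈ UU D M, g2 u ≤ 6 / Real.sqrt Uc * (M / LM) * E :=
          mul_le_mul_of_nonneg_left hG2 (by positivity)
      _ = (6 * E / Real.sqrt Uc) * (M / LM) := by ring
      _ ≤ δ / 4 * (M / LM) := by
          apply mul_le_mul_of_nonneg_right _ hML.le
          have h1 : 24 * E / δ ≤ Real.sqrt Uc := by
            apply Real.le_sqrt_of_sq_le
            rw [hUc]; linarith
          rw [div_le_div_iff₀ (Real.sqrt_pos.mpr hU0) (by norm_num)]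
          rw [div_le_iff₀ hδ] at h1
          linarith
  have hA2 : ((UU D M).card : ℝ) ≤ δ / 4 * (M / LM) := by
    refine hA.trans ?_
    calc Real.sqrt M * Real.exp (4 * B) = E * Real.sqrt M := by rw [hEdef]; ring
      _ ≤ _ := f10
  have hfin : δ / 4 * (M / LM) + ((1 + δ / 4) * (M / LM) * F + δ / 4 * (M / LM)) + δ / 4 * (M / LM) ≤
      (1 + δ) * (M / LM) * F := by
    nlinarith [mul_le_mul_of_nonneg_left hF1 (mul_nonneg hδ.le hML.le)]
  linarith

end Pool.Agent.T2H53.GW
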