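import Mathlib

set_option autoImplicit false

/-! # Independent events in disjoint blocks -/

namespace Pool.Agent.T2H53.GW

open Finset MeasureTheory ProbabilityTheory

variable {Ω : Type*} [MeasurableSpace Ω] {μ : Measure Ω} [IsProbabilityMeasure μ] {S : ℕ → Set Ω}

/-- the union over a block -/
def HF (S : ℕ → Set Ω) (F : Finset ℕ) : Set Ω := ⋃ n ∈ F, S n

lemma measurable_HF (hm : ∀ n, MeasurableSet (S n)) (F : Finset ℕ) : MeasurableSet (HF S F) :=
  F.measurableSet_biUnion fun n _ => hm n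

/-- the sigma-algebra of a block -/
abbrev GF (S : ℕ → Set Ω) (T : Set ℕ) : MeasurableSpace Ω :=
  MeasurableSpace.generateFrom {t | ∃ n ∈ T, S n = t}

lemma GF_S {T : Set ℕ} {n : ℕ} (hn : n ∈ T) : MeasurableSet[GF S T] (S n) :=
  MeasurableSpace.measurableSet_generateFrom ⟨n, hn, rfl⟩

lemma GF_HF {T : Set ℕ} {F : Finset ℕ} (hF : ∀ n ∈ F, n ∈ T) : MeasurableSet[GF S T] (HF S F) :=
  @Finset.measurableSet_biUnion _ _ (GF S T) _ F fun n hn => GF_S (hF n hn)

lemma GF_compl {T : Set ℕ} {F : Finset ℕ} (hF : ∀ n ∈ F, n ∈ T) :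
    MeasurableSet[GF S T] ((HF S F)ᶜ) :=
  @MeasurableSet.compl _ _ (GF S T) (GF_HF hF)

/-- the block contains no point: product formula -/
lemma real_compl_HF (hm : ∀ n, MeasurableSet (S n)) (hi : iIndepSet S μ) (F : Finset ℕ) :
    μ.real ((HF S F)ᶜ) = ∏ n ∈ F, (1 - μ.real (S n)) := by
  classical
  induction F using Finset.induction_on with
  | empty =>
    have : HF S ∅ = (∅ : Set Ω) := by simp [HF]
    rw [this]; simp
  | insert a F ha ih =>
    rw [prod_insert ha, ← ih]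
    have h1 := hi.indep_generateFrom_of_disjoint hm {a} (F : Set ℕ)
      (by rw [Set.disjoint_singleton_left]; simpa using ha)
    have h2 := h1.indepSet_of_measurableSet (s := (S a)ᶜ) (t := (HF S F)ᶜ)
      (@MeasurableSet.compl _ _ (GF S {a}) (GF_S (Set.mem_singleton a)))
      (GF_compl fun n hn => by simpa using hn)
    have h3 : (HF S (insert a F))ᶜ = (S a)ᶜ ∩ (HF S F)ᶜ := by
      unfold HF
      rw [Finset.set_biUnion_insert, Set.compl_union]
    have h4 := h2.measure_inter_eq_mul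
    rw [h3, measureReal_def, h4, ENNReal.toReal_mul]
    congr 1
    have := probReal_compl_eq_one_sub (μ := μ) (hm a)
    exact this

lemma real_HF (hm : ∀ n, MeasurableSet (S n)) (hi : iIndepSet S μ) (F : Finset ℕ) :
    μ.real (HF S F) = 1 - ∏ n ∈ F, (1 - μ.real (S n)) := by
  have h := probReal_compl_eq_one_sub (μ := μ) (measurable_HF hm F)
  rw [real_compl_HF hm hi F] at h
  linarith

/-- every one of several disjoint blocks contains a point: product formula -/
lemma real_inter_HF (hm : ∀ n, MeasurableSet (S n)) (hi : iIndepSet S μ) (𝒜 : Finset ℕ)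
    (F : ℕ → Finset ℕ) (hd : ∀ a ∈ 𝒜, ∀ b ∈ 𝒜, a ≠ b → Disjoint (F a) (F b)) :
    μ.real (⋂ a ∈ 𝒜, HF S (F a)) = ∏ a ∈ 𝒜, (1 - ∏ n ∈ F a, (1 - μ.real (S n))) := by
  classical
  induction 𝒜 using Finset.induction_on with
  | empty => simp
  | insert a 𝒜 ha ih =>
    rw [prod_insert ha, ← ih fun x hx y hy => hd x (mem_insert_of_mem hx) y (mem_insert_of_mem hy),
      ← real_HF hm hi]
    have hdisj : Disjoint (F a : Set ℕ) (↑(𝒜.biUnion F) : Set ℕ) := by
      rw [Finset.disjoint_coe, Finset.disjoint_biUnion_right]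
      intro b hb
      exact hd a (mem_insert_self a 𝒜) b (mem_insert_of_mem hb) (by rintro rfl; exact ha hb)
    have h1 := hi.indep_generateFrom_of_disjoint hm (F a : Set ℕ) (↑(𝒜.biUnion F) : Set ℕ) hdisj
    have h2 := h1.indepSet_of_measurableSet (s := HF S (F a)) (t := ⋂ b ∈ 𝒜, HF S (F b))
      (GF_HF fun n hn => by simpa using hn)
      (@Finset.measurableSet_biInter _ _ (GF S _) _ 𝒜 fun b hb =>
        GF_HF fun n hn => by
          simp only [coe_biUnion, Set.mem_iUnion]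
          exact ⟨b, by simpa using hb, by simpa using hn⟩)
    have h3 : (⋂ b ∈ insert a 𝒜, HF S (F b)) = HF S (F a) ∩ ⋂ b ∈ 𝒜, HF S (F b) := by
      rw [Finset.set_biInter_insert]
    have h4 := h2.measure_inter_eq_mul
    rw [h3, measureReal_def, h4, ENNReal.toReal_mul]
    rfl

/-- many blocks, each empty with probability at least `q` -/
lemma all_hit_le (hm : ∀ n, MeasurableSet (S n)) (hi : iIndepSet S μ) (𝒜 : Finset ℕ)
    (F : ℕ → Finset ℕ) (hd : ∀ a ∈ 𝒜, ∀ b ∈ 𝒜, a ≠ b → Disjoint (F a) (F b)) (q : ℝ) (hq0 : 0 ≤ q)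
    (hq : ∀ a ∈ 𝒜, q ≤ ∏ n ∈ F a, (1 - μ.real (S n))) :
    μ.real (⋂ a ∈ 𝒜, HF S (F a)) ≤ Real.exp (-(q * 𝒜.card)) := by
  rw [real_inter_HF hm hi 𝒜 F hd]
  have h1 : ∏ a ∈ 𝒜, (1 - ∏ n ∈ F a, (1 - μ.real (S n))) ≤ ∏ a ∈ 𝒜, Real.exp (-q) := by
    refine prod_le_prod (fun a ha => ?_) fun a ha => ?_
    · have : ∏ n ∈ F a, (1 - μ.real (S n)) ≤ 1 :=
        prod_le_one (fun n _ => by linarith [measureReal_le_one (μ := μ) (s := S n)])
          fun n _ => by linarith [measureReal_nonneg (μ := μ) (s := S n)]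
      linarith
    · have h2 := hq a ha
      have h3 := Real.add_one_le_exp (-q)
      linarith
  refine h1.trans (le_of_eq ?_)
  rw [prod_const, ← Real.exp_nat_mul]
  congr 1; ring

/-- union bound for empty blocks -/
lemma some_empty_le (hm : ∀ n, MeasurableSet (S n)) (hi : iIndepSet S μ) (𝒜 : Finset ℕ)
    (F : ℕ → Finset ℕ) (t : ℝ) (ht : ∀ a ∈ 𝒜, t ≤ ∑ n ∈ F a, μ.real (S n)) :
    μ.real (⋃ a ∈ 𝒜, (HF S (F a))ᶜ) ≤ 𝒜.card * Real.exp (-t) := by
  refine (measureReal_biUnion_finset_le 𝒜 _).trans ?_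
  have h : ∀ a ∈ 𝒜, μ.real ((HF S (F a))ᶜ) ≤ Real.exp (-t) := by
    intro a ha
    rw [real_compl_HF hm hi]
    calc ∏ n ∈ F a, (1 - μ.real (S n)) ≤ ∏ n ∈ F a, Real.exp (-(μ.real (S n))) := by
          refine prod_le_prod (fun n _ => by linarith [measureReal_le_one (μ := μ) (s := S n)])
            fun n _ => ?_
          have := Real.add_one_le_exp (-(μ.real (S n)))
          linarith
      _ = Real.exp (-(∑ n ∈ F a, μ.real (S n))) := by
          rw [← Real.exp_sum, Finset.sum_neg_distrib]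
      _ ≤ Real.exp (-t) := Real.exp_le_exp.mpr (by linarith [ht a ha])
  refine (sum_le_sum h).trans (le_of_eq ?_)
  rw [sum_const, nsmul_eq_mul]

/-- Borel-Cantelli -/
lemma bc (E : ℕ → Set Ω) (n₀ : ℕ) (f : ℕ → ℝ) (hf : Summable f) (h : ∀ n ≥ n₀, μ.real (E n) ≤ f n) :
    ∀ᵐ ω ∂μ, ∀ᶠ n in Filter.atTop, ω ∉ E n := by
  have hsum : ∑' n, μ (E (n + n₀)) ≠ ⊤ := by
    have h1 : ∀ n, μ (E (n + n₀)) ≤ ENNReal.ofReal (f (n + n₀)) := by
      intro n
      have h2 := h (n + n₀) (by omega)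
      rw [← ofReal_measureReal (μ := μ) (s := E (n + n₀)) (measure_ne_top _ _)]
      exact ENNReal.ofReal_le_ofReal h2
    have hf' : Summable fun n => f (n + n₀) := (summable_nat_add_iff n₀).mpr hf
    have hnn : ∀ n, 0 ≤ f (n + n₀) := fun n => measureReal_nonneg.trans (h (n + n₀) (by omega))
    have h3 : ∑' n, ENNReal.ofReal (f (n + n₀)) = ENNReal.ofReal (∑' n, f (n + n₀)) :=
      (ENNReal.ofReal_tsum_of_nonneg hnn hf').symm
    refine ne_top_of_le_ne_top ?_ (ENNReal.tsum_le_tsum h1)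
    rw [h3]
    exact ENNReal.ofReal_ne_top
  have h4 := ae_eventually_notMem hsum
  filter_upwards [h4] with ω hω
  obtain ⟨N, hN⟩ := Filter.eventually_atTop.mp hω
  refine Filter.eventually_atTop.mpr ⟨N + n₀, fun n hn => ?_⟩
  have := hN (n - n₀) (by omega)
  rwa [Nat.sub_add_cancel (by omega)] at this

end Pool.Agent.T2H53.GW
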