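import Mathlib
import Pool.Agent.T2H53.GW.Count2
import Pool.Agent.T2H53.GW.Prob
import Pool.Agent.H305R2.Smooth

set_option autoImplicit false

/-! # The model and the general lower bound -/

namespace Pool.Agent.T2H53.GW

open Finset Filter Topology MeasureTheory ProbabilityTheory

open Pool.Agent.H305R2 (VV VV_tendsto)

open scoped Classical in
/-- the probability of `n` in the model with the sieve limit `A log n` -/
noncomputable def pr (A : ℝ) (n : ℕ) : ℝ :=
  if ∀ p : ℕ, p.Prime → (p : ℝ) ≤ A * Real.log n → ¬ p ∣ n then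
    min 1 (VV ⌊A * Real.log n⌋₊ / Real.log n) else 0

lemma one_le_VV (N : ℕ) : 1 ≤ VV N := by
  unfold VV
  exact one_le_prod _ fun p hp => (mem_filter.mp hp).2

lemma one_le_factor {p : ℕ} (hp : p.Prime) : 1 ≤ (1 - (p : ℝ)⁻¹)⁻¹ := by
  have := one_le_prod {p} (by simpa using hp)
  simpa using this

lemma VV_mono {a b : ℕ} (h : a ≤ b) : VV a ≤ VV b := by
  unfold VV
  apply Finset.prod_le_prod_of_subset_of_one_le
  · intro p hp
    rw [mem_filter, mem_Icc] at hp ⊢
    exact ⟨⟨hp.1.1, hp.1.2.trans h⟩, hp.2⟩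
  · intro p hp
    have := one_le_factor (mem_filter.mp hp).2
    linarith
  · intro p hp _
    exact one_le_factor (mem_filter.mp hp).2

lemma pr_nonneg (A : ℝ) (n : ℕ) : 0 ≤ pr A n := by
  unfold pr
  split_ifs
  · have h1 := one_le_VV ⌊A * Real.log n⌋₊
    have h2 : 0 ≤ Real.log (n : ℝ) := Real.log_natCast_nonneg n
    positivity
  · exact le_rfl

lemma pr_le_one (A : ℝ) (n : ℕ) : pr A n ≤ 1 := by
  unfold pr
  split_ifs
  · exact min_le_left _ _
  · norm_num

/-- the weight bounding the probabilities in a range -/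
noncomputable def WW (A : ℝ) (d M : ℕ) : ℝ := VV ⌊A * Real.log (M * d)⌋₊ / Real.log (d / 2)

lemma pr_le_WW {A : ℝ} (hA : 0 ≤ A) {d M n : ℕ} (hd : 2 < d) (h1 : (d : ℝ) / 2 ≤ n) (h2 : n ≤ M * d) :
    pr A n ≤ WW A d M := by
  have hd0 : (2 : ℝ) < d := by exact_mod_cast hd
  have hl1 : 0 < Real.log ((d : ℝ) / 2) := Real.log_pos (by linarith)
  have hn0 : (0 : ℝ) < n := by linarith
  have hl2 : Real.log ((d : ℝ) / 2) ≤ Real.log n := Real.log_le_log (by linarith) h1
  have h3 : Real.log (n : ℝ) ≤ Real.log ((M : ℝ) * d) := by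
    apply Real.log_le_log hn0
    exact_mod_cast h2
  have h4 : VV ⌊A * Real.log n⌋₊ ≤ VV ⌊A * Real.log ((M : ℝ) * d)⌋₊ :=
    VV_mono (Nat.floor_le_floor (mul_le_mul_of_nonneg_left h3 hA))
  have h5 := one_le_VV ⌊A * Real.log n⌋₊
  have hW : 0 ≤ WW A d M := by
    unfold WW
    have := one_le_VV ⌊A * Real.log ((M : ℝ) * d)⌋₊
    positivity
  unfold pr
  split_ifs
  · refine (min_le_right _ _).trans ?_
    unfold WW
    exact div_le_div₀ (by linarith) h4 hl1 hl2
  · exact hW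

/-- the classes used: `d - j Q` for primes `j` not dividing `d` -/
def JJ (d Q : ℕ) : Finset ℕ := (Icc 1 (d / (2 * Q))).filter fun j => j.Prime ∧ ¬ j ∣ d

lemma card_JJ_ge (η : ℝ) (hη : 0 < η) (hη2 : η < 1 / 2) : ∃ d₀ : ℕ, ∀ d : ℕ, d₀ ≤ d → ∀ Q : ℕ, 1 ≤ Q →
    (Q : ℝ) ≤ (d : ℝ) ^ η → (d : ℝ) ^ (1 - 3 / 2 * η) ≤ ((JJ d Q).card : ℝ) := by
  have hT : Tendsto (fun d : ℕ => (d : ℝ)) atTop atTop := tendsto_natCast_atTop_atTop
  have t1 : Tendsto (fun d : ℕ => (d : ℝ) ^ (1 - η) / 4) atTop atTop :=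
    ((tendsto_rpow_atTop (by linarith)).comp hT).atTop_div_const (by norm_num)
  have hpi := Pool.Agent.Helper923.PNT.pi_tendsto
  obtain ⟨X1, hX1⟩ := eventually_atTop.mp (hpi.eventually (eventually_gt_nhds (show (1 / 2 : ℝ) < 1 by norm_num)))
  have t2 : Tendsto (fun d : ℕ => Real.log (d : ℝ) / (d : ℝ) ^ (η / 4)) atTop (𝓝 0) :=
    ((isLittleO_log_rpow_atTop (show (0 : ℝ) < η / 4 by positivity)).tendsto_div_nhds_zero).comp hT
  obtain ⟨d₀, hd₀⟩ := eventually_atTop.mp ((t1.eventually_ge_atTop (max X1 2)).and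
    ((t2.eventually (eventually_lt_nhds (show (0 : ℝ) < 1 / 16 by norm_num))).and (hT.eventually_ge_atTop 2)))
  refine ⟨d₀, fun d hd Q hQ hQd => ?_⟩
  obtain ⟨h1, h2, h3⟩ := hd₀ d hd
  have hX : X1 ≤ (d : ℝ) ^ (1 - η) / 4 := (le_max_left _ _).trans h1
  have h4 : 2 ≤ (d : ℝ) ^ (1 - η) / 4 := (le_max_right _ _).trans h1
  have hd0 : (0 : ℝ) < d := by linarith
  have hd1 : (1 : ℝ) ≤ d := by linarith
  have hdn : 0 < d := by exact_mod_cast hd0
  have hdη : 0 < (d : ℝ) ^ η := Real.rpow_pos_of_pos hd0 _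
  set x : ℝ := (d : ℝ) ^ (1 - η) / 4 with hx
  have hQ0 : (0 : ℝ) < Q := by exact_mod_cast hQ
  -- the number of `j`
  have hJ : x ≤ ((d / (2 * Q) : ℕ) : ℝ) := by
    have h5 : (d : ℝ) / (2 * Q) - 1 ≤ ((d / (2 * Q) : ℕ) : ℝ) := by
      have h6 := Nat.lt_floor_add_one ((d : ℝ) / ((2 * Q : ℕ) : ℝ))
      rw [Nat.floor_div_eq_div] at h6
      push_cast at h6
      linarith
    have h7 : (d : ℝ) ^ (1 - η) / 2 ≤ (d : ℝ) / (2 * Q) := by
      rw [Real.rpow_sub hd0, Real.rpow_one, div_div]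
      apply div_le_div_of_nonneg_left hd0.le (by positivity)
      linarith
    linarith
  have hcard : ((Nat.primeCounting ⌊x⌋₊ : ℝ)) - (d.primeFactors.card : ℝ) ≤ ((JJ d Q).card : ℝ) := by
    have h5 : (Icc 1 (d / (2 * Q))).filter Nat.Prime ⊆ JJ d Q ∪ d.primeFactors := by
      intro j hj
      rw [mem_filter] at hj
      rw [mem_union, JJ, mem_filter]
      by_cases h : j ∣ d
      · right
        rw [Nat.mem_primeFactors]
        exact ⟨hj.2, h, by omega⟩
      · left; exact ⟨hj.1, hj.2, h⟩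
    have h6 := (card_le_card h5).trans (card_union_le _ _)
    rw [card_primes] at h6
    have h7 : Nat.primeCounting ⌊x⌋₊ ≤ Nat.primeCounting (d / (2 * Q)) := by
      apply Nat.monotone_primeCounting
      rw [← Nat.floor_natCast (R := ℝ) (d / (2 * Q))]
      exact Nat.floor_le_floor hJ
    have h8 : ((Nat.primeCounting ⌊x⌋₊ : ℕ) : ℝ) ≤ ((JJ d Q).card : ℝ) + (d.primeFactors.card : ℝ) := by
      exact_mod_cast h7.trans h6
    linarith
  have hom : (d.primeFactors.card : ℝ) ≤ 2 * Real.log d := by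
    have h5 : 2 ^ d.primeFactors.card ≤ d := by
      calc 2 ^ d.primeFactors.card ≤ ∏ p ∈ d.primeFactors, p :=
            Finset.pow_card_le_prod _ _ _ fun p hp => (Nat.prime_of_mem_primeFactors hp).two_le
        _ ≤ d := Nat.le_of_dvd (by omega) (Nat.prod_primeFactors_dvd d)
    have h6 : ((2 : ℝ)) ^ d.primeFactors.card ≤ d := by exact_mod_cast h5
    have h7 := Real.log_le_log (by positivity) h6
    rw [Real.log_pow] at h7
    have h8 := Real.log_two_gt_d9
    have h9 : 0 ≤ (d.primeFactors.card : ℝ) := Nat.cast_nonneg _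
    nlinarith
  have hpx := hX1 x hX
  have hx1 : (1 : ℝ) < x := by linarith
  have hlx : 0 < Real.log x := Real.log_pos hx1
  have hlx2 : Real.log x ≤ Real.log d := by
    apply Real.log_le_log (by linarith)
    rw [hx]
    have : (d : ℝ) ^ (1 - η) ≤ (d : ℝ) ^ (1 : ℝ) := Real.rpow_le_rpow_of_exponent_le hd1 (by linarith)
    rw [Real.rpow_one] at this
    have := Real.rpow_pos_of_pos hd0 (1 - η)
    linarith
  have hld : 0 < Real.log d := by linarith
  have hp2 : x / (2 * Real.log d) ≤ (Nat.primeCounting ⌊x⌋₊ : ℝ) := by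
    rw [lt_div_iff₀ (by linarith)] at hpx
    rw [div_le_iff₀ (by positivity)]
    have : 0 ≤ (Nat.primeCounting ⌊x⌋₊ : ℝ) := Nat.cast_nonneg _
    nlinarith
  -- the powers
  set P : ℝ := (d : ℝ) ^ (η / 4) with hP
  have hP0 : 0 < P := Real.rpow_pos_of_pos hd0 _
  have hP1 : 1 ≤ P := Real.one_le_rpow hd1 (by positivity)
  have h16 : Real.log d ≤ P / 16 := by
    rw [div_lt_iff₀ hP0] at h2
    linarith
  set R : ℝ := (d : ℝ) ^ (1 - 5 / 4 * η) with hR
  have hR0 : 0 < R := Real.rpow_pos_of_pos hd0 _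
  have hxR : x = P * R / 4 := by
    rw [hx, hP, hR, ← Real.rpow_add hd0]
    congr 2; ring
  have e1 : 2 * R ≤ x / (2 * Real.log d) := by
    rw [le_div_iff₀ (by positivity), hxR]
    nlinarith
  have e2 : 2 * Real.log d ≤ R := by
    have h5 : P ≤ R := Real.rpow_le_rpow_of_exponent_le hd1 (by linarith)
    linarith
  have e3 : (d : ℝ) ^ (1 - 3 / 2 * η) ≤ R := Real.rpow_le_rpow_of_exponent_le hd1 (by linarith)
  linarith

/-- the block of the class of `a`: `a, a + d, ..., a + K d` -/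
def Bl (d K a : ℕ) : Finset ℕ := (range (K + 1)).image fun k => a + k * d

lemma mem_Bl {d K a n : ℕ} (hn : n % d = a) (hK : n / d ≤ K) : n ∈ Bl d K a := by
  rw [Bl, mem_image]
  refine ⟨n / d, by rw [mem_range]; omega, ?_⟩
  rw [← hn, mul_comm]
  exact Nat.mod_add_div n d

lemma disj_Bl {d K a b : ℕ} (ha : a < d) (hb : b < d) (hab : a ≠ b) : Disjoint (Bl d K a) (Bl d K b) := by
  rw [Finset.disjoint_left]
  intro n h1 h2
  rw [Bl, mem_image] at h1 h2
  obtain ⟨k, _, rfl⟩ := h1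
  obtain ⟨l, _, hl⟩ := h2
  have h3 := congrArg (· % d) hl
  simp only [Nat.add_mul_mod_self_right, Nat.mod_eq_of_lt ha, Nat.mod_eq_of_lt hb] at h3
  exact hab h3.symm

lemma sum_Bl (f : ℕ → ℝ) {d K a : ℕ} (hd : 0 < d) : ∑ n ∈ Bl d K a, f n = ∑ k ∈ range (K + 1), f (a + k * d) := by
  rw [Bl, sum_image]
  intro k _ l _ h
  simp only at h
  exact Nat.eq_of_mul_eq_mul_right hd (by omega)

lemma prod_Bl (f : ℕ → ℝ) {d K a : ℕ} (hd : 0 < d) : ∏ n ∈ Bl d K a, f n = ∏ k ∈ range (K + 1), f (a + k * d) := by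
  rw [Bl, prod_image]
  intro k _ l _ h
  simp only at h
  exact Nat.eq_of_mul_eq_mul_right hd (by omega)

/-- sum of the probabilities over the class of `d - j Q` -/
lemma sum_pr_le {A : ℝ} (hA : 0 ≤ A) {d Q y K j : ℕ} (hd : 2 < d) (hj : j * Q * 2 ≤ d)
    (hQd : ∀ p : ℕ, p.Prime → p ≤ y → ¬ p ∣ d → p ∣ Q) (hy : (y : ℝ) ≤ A * Real.log (d / 2)) :
    ∑ k ∈ range (K + 1), pr A ((d - j * Q) + k * d) ≤
      ((NQ d.primeFactors y (K + 1)).card : ℝ) * WW A d (K + 1) := by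
  classical
  have hd0 : (2 : ℝ) < d := by exact_mod_cast hd
  have hW : 0 ≤ WW A d (K + 1) := by
    unfold WW
    have h1 := one_le_VV ⌊A * Real.log (((K + 1 : ℕ) : ℝ) * d)⌋₊
    have : 0 < Real.log ((d : ℝ) / 2) := Real.log_pos (by linarith)
    positivity
  have h1 : ∀ k ∈ range (K + 1), pr A ((d - j * Q) + k * d) ≤
      if k + 1 ∈ NQ d.primeFactors y (K + 1) then WW A d (K + 1) else 0 := by
    intro k hk
    rw [mem_range] at hk
    set n := (d - j * Q) + k * d with hn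
    have hge : d ≤ 2 * n := by
      have : d ≤ 2 * (d - j * Q) := by omega
      have : 0 ≤ k * d := Nat.zero_le _
      omega
    have hgeR : (d : ℝ) / 2 ≤ n := by
      have : (d : ℝ) ≤ 2 * n := by exact_mod_cast hge
      linarith
    have hle : n ≤ (K + 1) * d := by
      calc n ≤ d + k * d := by omega
        _ = (k + 1) * d := by ring
        _ ≤ (K + 1) * d := Nat.mul_le_mul_right _ (by omega)
    split_ifs with h
    · exact pr_le_WW hA hd hgeR hle
    · unfold pr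
      rw [if_neg]
      intro hall
      apply h
      rw [NQ, mem_filter, mem_Icc]
      refine ⟨⟨by omega, by omega⟩, fun p hp hpy hpk => ?_⟩
      rw [Nat.mem_primeFactors]
      refine ⟨hp, ?_, by omega⟩
      by_contra hpd
      have hpQ := hQd p hp hpy hpd
      have hn2 : n = (k + 1) * d - j * Q := by
        rw [hn]
        have : j * Q ≤ d := by omega
        have e : (k + 1) * d = k * d + d := by ring
        omega
      have hpn : p ∣ n := by
        rw [hn2]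
        exact Nat.dvd_sub (hpk.mul_right d) (hpQ.mul_left j)
      refine hall p hp ?_ hpn
      calc (p : ℝ) ≤ y := by exact_mod_cast hpy
        _ ≤ A * Real.log (d / 2) := hy
        _ ≤ A * Real.log n := mul_le_mul_of_nonneg_left (Real.log_le_log (by linarith) hgeR) hA
  refine (sum_le_sum h1).trans ?_
  rw [← sum_filter, sum_const, nsmul_eq_mul]
  apply mul_le_mul_of_nonneg_right _ hW
  have h2 : ((range (K + 1)).filter (fun k => k + 1 ∈ NQ d.primeFactors y (K + 1))).card ≤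
      (NQ d.primeFactors y (K + 1)).card := by
    apply card_le_card_of_injOn (fun k => k + 1)
    · intro k hk
      rw [mem_coe, mem_filter] at hk
      exact hk.2
    · intro a _ b _ h
      simpa using h
  exact_mod_cast h2

lemma one_sub_ge {x w : ℝ} (hx : 0 ≤ x) (hxw : x ≤ w) (hw : w < 1) : Real.exp (-(x / (1 - w))) ≤ 1 - x := by
  have h1 : 0 < 1 - x := by linarith
  have h2 := Real.one_sub_inv_le_log_of_pos h1
  have h3 : -(x / (1 - w)) ≤ Real.log (1 - x) := by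
    refine le_trans ?_ h2
    have h4 : 1 - (1 - x)⁻¹ = -(x / (1 - x)) := by field_simp; ring
    rw [h4]
    apply neg_le_neg
    exact div_le_div_of_nonneg_left hx (by linarith) (by linarith)
  calc Real.exp (-(x / (1 - w))) ≤ Real.exp (Real.log (1 - x)) := Real.exp_le_exp.mpr h3
    _ = 1 - x := Real.exp_log h1

variable {Ω : Type*} [MeasurableSpace Ω] {μ : Measure Ω} [IsProbabilityMeasure μ] {S : ℕ → Set Ω}

/-- the event that every reduced class has an element `n` with `n / d ≤ K` -/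
def Ev (S : ℕ → Set Ω) (d K : ℕ) : Set Ω :=
  {ω | ∀ a : ℕ, 1 ≤ a → a < d → Nat.Coprime a d → ∃ n : ℕ, n % d = a ∧ n / d ≤ K ∧ ω ∈ S n}

theorem low_prob (A : ℝ) (hA : 0 ≤ A) (η : ℝ) (hη : 0 < η) (hη2 : η < 1 / 2) : ∃ d₀ : ℕ, ∀ d : ℕ, d₀ ≤ d →
    ∀ Q y K : ℕ, 1 ≤ Q → (Q : ℝ) ≤ (d : ℝ) ^ η → Nat.Coprime Q d →
    (∀ p : ℕ, p.Prime → p ≤ y → ¬ p ∣ d → p ∣ Q) → (y : ℝ) ≤ A * Real.log (d / 2) →
    WW A d (K + 1) < 1 →
    ((NQ d.primeFactors y (K + 1)).card : ℝ) * WW A d (K + 1) / (1 - WW A d (K + 1)) ≤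
      (1 - 2 * η) * Real.log d →
    ∀ (Ω : Type*) [MeasurableSpace Ω] (μ : Measure Ω) [IsProbabilityMeasure μ] (S : ℕ → Set Ω),
    (∀ n, MeasurableSet (S n)) → iIndepSet S μ → (∀ n, μ.real (S n) = pr A n) →
    μ.real (Ev S d K) ≤ 1 / (d : ℝ) ^ 2 := by
  obtain ⟨d₁, hd₁⟩ := card_JJ_ge η hη hη2
  have hT : Tendsto (fun d : ℕ => (d : ℝ)) atTop atTop := tendsto_natCast_atTop_atTop
  have t2 : Tendsto (fun d : ℕ => Real.log (d : ℝ) / (d : ℝ) ^ (η / 2)) atTop (𝓝 0) :=
    ((isLittleO_log_rpow_atTop (show (0 : ℝ) < η / 2 by positivity)).tendsto_div_nhds_zero).comp hT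
  obtain ⟨d₂, hd₂⟩ := eventually_atTop.mp (t2.eventually (eventually_lt_nhds (show (0 : ℝ) < 1 / 2 by norm_num)))
  refine ⟨max (max d₁ d₂) 3, fun d hd Q y K hQ1 hQη hQd hQy hy hW1 hN Ω _ μ _ S hm hi hp => ?_⟩
  have hdd1 : d₁ ≤ d := (le_max_left _ _).trans ((le_max_left _ _).trans hd)
  have hdd2 : d₂ ≤ d := (le_max_right _ _).trans ((le_max_left _ _).trans hd)
  have hd3 : 3 ≤ d := (le_max_right _ _).trans hd
  have hdR : (3 : ℝ) ≤ d := by exact_mod_cast hd3
  have hd0 : (0 : ℝ) < d := by linarith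
  have hcard := hd₁ d hdd1 Q hQ1 hQη
  have hlog := hd₂ d hdd2
  set W := WW A d (K + 1) with hWdef
  set N := ((NQ d.primeFactors y (K + 1)).card : ℝ) with hNdef
  set q : ℝ := Real.exp (-(N * W / (1 - W))) with hq
  set 𝒜 : Finset ℕ := (JJ d Q).image fun j => d - j * Q with h𝒜
  have hJ : ∀ j ∈ JJ d Q, j * Q * 2 ≤ d ∧ 1 ≤ j ∧ j.Prime ∧ ¬ j ∣ d := by
    intro j hj
    rw [JJ, mem_filter, mem_Icc] at hj
    refine ⟨?_, hj.1.1, hj.2.1, hj.2.2⟩
    calc j * Q * 2 = j * (2 * Q) := by ring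
      _ ≤ (d / (2 * Q)) * (2 * Q) := Nat.mul_le_mul_right _ hj.1.2
      _ ≤ d := Nat.div_mul_le_self _ _
  have hcard𝒜 : 𝒜.card = (JJ d Q).card := by
    apply card_image_of_injOn
    intro j hj l hl h
    have h1 := hJ j hj
    have h2 := hJ l hl
    simp only at h
    have h3 : j * Q = l * Q := by omega
    exact Nat.eq_of_mul_eq_mul_right (by omega) h3
  have hlt : ∀ a ∈ 𝒜, 1 ≤ a ∧ a < d ∧ Nat.Coprime a d := by
    intro a ha
    rw [h𝒜, mem_image] at ha
    obtain ⟨j, hj, rfl⟩ := ha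
    obtain ⟨h1, h2, h3, h4⟩ := hJ j hj
    have h5 : 0 < j * Q := Nat.mul_pos (by omega) (by omega)
    refine ⟨by omega, by omega, ?_⟩
    have h6 : Nat.Coprime (j * Q) d := by
      apply Nat.Coprime.mul_left _ hQd
      exact (Nat.Prime.coprime_iff_not_dvd h3).mpr h4
    have h7 : j * Q ≤ d := by omega
    exact (Nat.coprime_self_sub_left h7).mpr h6
  have hsub : Ev S d K ⊆ ⋂ a ∈ 𝒜, HF S (Bl d K a) := by
    intro ω hω
    simp only [Set.mem_iInter]
    intro a ha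
    obtain ⟨h1, h2, h3⟩ := hlt a ha
    obtain ⟨n, hn1, hn2, hn3⟩ := hω a h1 h2 h3
    unfold HF
    simp only [Set.mem_iUnion]
    exact ⟨n, mem_Bl hn1 hn2, hn3⟩
  have hblock : ∀ a ∈ 𝒜, q ≤ ∏ n ∈ Bl d K a, (1 - μ.real (S n)) := by
    intro a ha
    rw [h𝒜, mem_image] at ha
    obtain ⟨j, hj, rfl⟩ := ha
    obtain ⟨h1, h2, h3, h4⟩ := hJ j hj
    rw [prod_Bl _ (by omega)]
    have hb : ∀ k ∈ range (K + 1), Real.exp (-(pr A ((d - j * Q) + k * d) / (1 - W))) ≤
        1 - μ.real (S ((d - j * Q) + k * d)) := by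
      intro k hk
      rw [mem_range] at hk
      rw [hp]
      refine one_sub_ge (pr_nonneg A _) ?_ hW1
      apply pr_le_WW hA (by omega)
      · have h5 : d ≤ 2 * (d - j * Q + k * d) := by
          have : d ≤ 2 * (d - j * Q) := by omega
          have : 0 ≤ k * d := Nat.zero_le _
          omega
        have h6 : (d : ℝ) ≤ 2 * ((d - j * Q + k * d : ℕ) : ℝ) := by exact_mod_cast h5
        linarith
      · calc d - j * Q + k * d ≤ d + k * d := by omega
          _ = (k + 1) * d := by ring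
          _ ≤ (K + 1) * d := Nat.mul_le_mul_right _ (by omega)
    refine le_trans ?_ (prod_le_prod (fun k _ => (Real.exp_pos _).le) hb)
    rw [← Real.exp_sum, hq]
    apply Real.exp_le_exp.mpr
    rw [sum_neg_distrib, ← Finset.sum_div]
    apply neg_le_neg
    apply div_le_div_of_nonneg_right _ (by linarith)
    exact sum_pr_le hA (by omega) h1 hQy hy
  have hmain := all_hit_le hm hi 𝒜 (Bl d K)
    (fun a ha b hb hab => disj_Bl (hlt a ha).2.1 (hlt b hb).2.1 hab) q (Real.exp_pos _).le hblock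
  refine (measureReal_mono hsub).trans (hmain.trans ?_)
  have hq2 : (d : ℝ) ^ (-(1 - 2 * η)) ≤ q := by
    rw [hq, Real.rpow_def_of_pos hd0]
    apply Real.exp_le_exp.mpr
    have : Real.log d * -(1 - 2 * η) = -((1 - 2 * η) * Real.log d) := by ring
    rw [this]
    linarith
  have hbig : 2 * Real.log d ≤ q * 𝒜.card := by
    have h1 : (d : ℝ) ^ (η / 2) ≤ q * 𝒜.card := by
      rw [hcard𝒜]
      calc (d : ℝ) ^ (η / 2) = (d : ℝ) ^ (-(1 - 2 * η)) * (d : ℝ) ^ (1 - 3 / 2 * η) := by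
            rw [← Real.rpow_add hd0]; congr 1; ring
        _ ≤ q * ((JJ d Q).card : ℝ) :=
            mul_le_mul hq2 hcard (Real.rpow_nonneg hd0.le _) (Real.exp_pos _).le
    have h2 : 0 < (d : ℝ) ^ (η / 2) := Real.rpow_pos_of_pos hd0 _
    rw [div_lt_iff₀ h2] at hlog
    linarith
  calc Real.exp (-(q * 𝒜.card)) ≤ Real.exp (-(2 * Real.log d)) := Real.exp_le_exp.mpr (by linarith)
    _ = 1 / (d : ℝ) ^ 2 := by
        rw [Real.exp_neg, one_div]
        congr 1
        rw [show 2 * Real.log d = Real.log d + Real.log d by ring, Real.exp_add, Real.exp_log hd0, sq]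

end Pool.Agent.T2H53.GW
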