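import Mathlib
import Pool.Agent.T2H53.GW.Low

set_option autoImplicit false

/-! # The lower bound for the moduli with few small prime factors -/

namespace Pool.Agent.T2H53.GW

open Finset Filter Topology MeasureTheory ProbabilityTheory

open Pool.Agent.H305R2 (VV VV_tendsto)

/-- `e ^ γ` -/
noncomputable def GG : ℝ := Real.exp Real.eulerMascheroniConstant

lemma one_lt_GG : 1 < GG := by
  unfold GG
  rw [← Real.exp_zero]
  exact Real.exp_lt_exp.mpr (by linarith [Real.one_half_lt_eulerMascheroniConstant])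

lemma GG_lt_two : GG < 2 := by
  unfold GG
  have h1 : Real.exp Real.eulerMascheroniConstant < Real.exp (Real.log 2) := by
    apply Real.exp_lt_exp.mpr
    linarith [Real.eulerMascheroniConstant_lt_two_thirds, Real.log_two_gt_d9]
  rwa [Real.exp_log (by norm_num)] at h1

lemma VV_ev (a δ : ℝ) (ha : 0 < a) (hδ : 0 < δ) (hδ1 : δ ≤ 1) : ∀ᶠ x : ℝ in atTop,
    VV ⌊a * x⌋₊ ≤ (1 + δ) * GG * Real.log x := by
  have hG := one_lt_GG
  have h1 : ∀ᶠ n : ℕ in atTop, VV n / Real.log n < (1 + δ / 3) * GG := by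
    have := VV_tendsto
    refine this.eventually (eventually_lt_nhds ?_)
    change GG < _
    nlinarith
  have t1 : Tendsto (fun x : ℝ => ⌊a * x⌋₊) atTop atTop :=
    tendsto_nat_floor_atTop.comp (tendsto_id.const_mul_atTop ha)
  filter_upwards [t1.eventually h1, t1.eventually_ge_atTop 2, eventually_gt_atTop (1 : ℝ),
    Real.tendsto_log_atTop.eventually_ge_atTop (3 * |Real.log a| / δ)] with x h2 h3 h4 h5
  have hx0 : 0 < x := by linarith
  have hlx : 0 < Real.log x := Real.log_pos h4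
  have h6 : (2 : ℝ) ≤ (⌊a * x⌋₊ : ℝ) := by exact_mod_cast h3
  have hln : 0 < Real.log (⌊a * x⌋₊ : ℝ) := Real.log_pos (by linarith)
  rw [div_lt_iff₀ hln] at h2
  have h7 : Real.log (⌊a * x⌋₊ : ℝ) ≤ Real.log a + Real.log x := by
    rw [← Real.log_mul ha.ne' hx0.ne']
    exact Real.log_le_log (by linarith) (Nat.floor_le (by positivity))
  have h8 : Real.log a ≤ δ / 3 * Real.log x := by
    rw [div_le_iff₀ hδ] at h5
    have := le_abs_self (Real.log a)
    linarith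
  have h9 : Real.log (⌊a * x⌋₊ : ℝ) ≤ (1 + δ / 3) * Real.log x := by linarith
  calc VV ⌊a * x⌋₊ ≤ (1 + δ / 3) * GG * Real.log (⌊a * x⌋₊ : ℝ) := h2.le
    _ ≤ (1 + δ / 3) * GG * ((1 + δ / 3) * Real.log x) :=
        mul_le_mul_of_nonneg_left h9 (by positivity)
    _ = ((1 + δ / 3) * (1 + δ / 3)) * (GG * Real.log x) := by ring
    _ ≤ (1 + δ) * (GG * Real.log x) := by
        apply mul_le_mul_of_nonneg_right _ (by positivity)
        nlinarith
    _ = _ := by ring

lemma totient_prod (d : ℕ) (_hd : 0 < d) :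
    (d.totient : ℝ) * ∏ p ∈ d.primeFactors, (1 - (p : ℝ)⁻¹)⁻¹ = d := by
  have h := Nat.totient_eq_mul_prod_factors d
  have h2 : (d.totient : ℝ) = d * ∏ p ∈ d.primeFactors, (1 - (p : ℝ)⁻¹) := by
    have := congrArg (fun q : ℚ => (q : ℝ)) h
    push_cast at this
    exact this
  rw [h2, mul_assoc, ← prod_mul_distrib]
  have h3 : ∏ p ∈ d.primeFactors, ((1 - (p : ℝ)⁻¹) * (1 - (p : ℝ)⁻¹)⁻¹) = 1 := by
    apply prod_eq_one
    intro p hp
    have h4 : (1 : ℝ) < p := by exact_mod_cast (Nat.prime_of_mem_primeFactors hp).one_lt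
    have h5 : (p : ℝ)⁻¹ < 1 := inv_lt_one_of_one_lt₀ h4
    exact mul_inv_cancel₀ (by linarith)
  rw [h3, mul_one]

/-- facts on `L = log d` -/
def FL (A c0 δ Fm c' M0 : ℝ) (L : ℝ) : Prop :=
  Fm ≤ δ * (c0 * L ^ 2) ∧ M0 ≤ c0 * L ^ 2 / Fm ∧ 2 * (1 - δ) * Real.log L ≤ Real.log (c0 * L ^ 2 / Fm) ∧
  VV ⌊2 * A * L⌋₊ ≤ (1 + δ) * GG * Real.log L ∧ L ≤ (1 + δ) * (L - Real.log 2) ∧
  (1 + δ) ^ 2 * GG * Real.log L / L ≤ δ / (1 + δ) ∧ 2 * Real.log 2 ≤ L ∧ 2 ≤ c' * L ∧ 1 < L ∧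
  0 < Real.log L ∧ c0 * L ^ 2 + 1 ≤ Real.exp L ∧ 2 ≤ c0 * L ^ 2 / Fm

lemma ev_FL (A c0 δ Fm c' M0 : ℝ) (hA : 0 < A) (hc0 : 0 < c0) (hδ : 0 < δ) (hδ1 : δ ≤ 1) (hFm : 0 < Fm)
    (hc' : 0 < c') : ∀ᶠ L : ℝ in atTop, FL A c0 δ Fm c' M0 L := by
  have hG := one_lt_GG
  have t2 : Tendsto (fun L : ℝ => L ^ 2) atTop atTop := tendsto_pow_atTop (by norm_num)
  have t3 : Tendsto (fun L : ℝ => c0 * L ^ 2) atTop atTop := t2.const_mul_atTop hc0
  have t4 : Tendsto (fun L : ℝ => c0 * L ^ 2 / Fm) atTop atTop := t3.atTop_div_const hFm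
  have t5 : Tendsto (fun L : ℝ => δ * (c0 * L ^ 2)) atTop atTop := t3.const_mul_atTop hδ
  have t6 : Tendsto (fun L : ℝ => Real.log L / L) atTop (𝓝 0) := by
    have h := (isLittleO_log_rpow_atTop (show (0 : ℝ) < 1 by norm_num)).tendsto_div_nhds_zero
    simpa using h
  have t7 : Tendsto (fun L : ℝ => L ^ 2 / Real.exp L) atTop (𝓝 0) := by
    have h := Real.tendsto_pow_mul_exp_neg_atTop_nhds_zero 2
    refine h.congr fun x => ?_
    rw [Real.exp_neg]; rfl
  have hpos : 0 < δ / (1 + δ) / ((1 + δ) ^ 2 * GG) := by positivity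
  filter_upwards [t5.eventually_ge_atTop Fm, t4.eventually_ge_atTop M0,
    Real.tendsto_log_atTop.eventually_ge_atTop (|Real.log (c0 / Fm)| / (2 * δ)),
    VV_ev (2 * A) δ (by positivity) hδ hδ1, eventually_ge_atTop ((1 + δ) * Real.log 2 / δ),
    t6.eventually (eventually_lt_nhds hpos), eventually_ge_atTop (2 * Real.log 2),
    (tendsto_id.const_mul_atTop hc').eventually_ge_atTop 2, eventually_gt_atTop (1 : ℝ),
    t7.eventually (eventually_lt_nhds (show (0 : ℝ) < 1 / (2 * c0) by positivity)),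
    Real.tendsto_exp_atTop.eventually_ge_atTop 2, t4.eventually_ge_atTop 2]
    with L h1 h2 h3 h4 h5 h6 h7 h8 h9 h10 h11 h12
  have hL0 : 0 < L := by linarith
  refine ⟨h1, h2, ?_, ?_, ?_, ?_, h7, h8, h9, Real.log_pos h9, ?_, h12⟩
  · have e : c0 * L ^ 2 / Fm = (c0 / Fm) * L ^ 2 := by ring
    rw [e, Real.log_mul (by positivity) (by positivity), Real.log_pow]
    rw [div_le_iff₀ (by positivity)] at h3
    have := neg_abs_le (Real.log (c0 / Fm))
    push_cast
    nlinarith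
  · simpa [mul_assoc] using h4
  · rw [div_le_iff₀ hδ] at h5
    linarith
  · have h13 := h6.le
    rw [div_div, le_div_iff₀ (by positivity)] at h13
    have e : (1 + δ) ^ 2 * GG * Real.log L / L = (Real.log L / L) * ((1 + δ) ^ 2 * GG) := by ring
    rw [e, le_div_iff₀ (by positivity)]
    have e2 : Real.log L / L * ((1 + δ) ^ 2 * GG) * (1 + δ) =
      Real.log L / L * ((1 + δ) * ((1 + δ) ^ 2 * GG)) := by ring
    rw [e2]; exact h13
  · rw [div_lt_div_iff₀ (Real.exp_pos L) (by positivity)] at h10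
    linarith

theorem lowB (A : ℝ) (hA : 0 < A) (ε B : ℝ) (hε : 0 < ε) (hε1 : ε < 1) : ∃ d₀ : ℕ, ∀ d : ℕ, d₀ ≤ d →
    ∑ p ∈ d.primeFactors, (Real.sqrt p)⁻¹ ≤ B →
    ∀ (Ω : Type*) [MeasurableSpace Ω] (μ : Measure Ω) [IsProbabilityMeasure μ] (S : ℕ → Set Ω),
    (∀ n, MeasurableSet (S n)) → iIndepSet S μ → (∀ n, μ.real (S n) = pr A n) →
    μ.real (Ev S d ⌊(2 / GG - ε) * ((d.totient : ℝ) * Real.log d ^ 2) / d⌋₊) ≤ 1 / (d : ℝ) ^ 2 := by
  have hG1 := one_lt_GG
  have hG2 := GG_lt_two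
  have hG0 : 0 < GG := by linarith
  set c0 : ℝ := 2 / GG - ε with hc0def
  have hc0 : 0 < c0 := by
    have : 1 < 2 / GG := by rw [lt_div_iff₀ hG0]; linarith
    rw [hc0def]; linarith
  have hc02 : c0 < 2 := by
    have : 2 / GG < 2 := by rw [div_lt_iff₀ hG0]; linarith
    rw [hc0def]; linarith
  set δ : ℝ := ε / 100 with hδdef
  have hδ : 0 < δ := by positivity
  have hδ1 : δ ≤ 1 / 100 := by rw [hδdef]; linarith
  set η : ℝ := ε / 8 with hηdef
  have hη : 0 < η := by positivity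
  have hη2 : η < 1 / 2 := by rw [hηdef]; linarith
  set Fm : ℝ := Real.exp (4 * B) with hFmdef
  have hFm : 0 < Fm := Real.exp_pos _
  set c' : ℝ := min (A / 2) (η / Real.log 4) with hc'def
  have hl4 : 0 < Real.log 4 := Real.log_pos (by norm_num)
  have hc' : 0 < c' := lt_min (by positivity) (by positivity)
  have hc'1 : c' ≤ A / 2 := min_le_left _ _
  have hc'2 : c' * Real.log 4 ≤ η := by
    have : c' ≤ η / Real.log 4 := min_le_right _ _
    rwa [le_div_iff₀ hl4] at this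
  obtain ⟨M₀, hM₀⟩ := NQ_bound B (12 / c' ^ 2) δ (by positivity) hδ
  obtain ⟨d₁, hd₁⟩ := low_prob A hA.le η hη hη2
  have hlog : Tendsto (fun d : ℕ => Real.log (d : ℝ)) atTop atTop :=
    Real.tendsto_log_atTop.comp tendsto_natCast_atTop_atTop
  obtain ⟨d₂, hd₂⟩ := eventually_atTop.mp
    (hlog.eventually (ev_FL A c0 δ Fm c' M₀ hA hc0 hδ (by linarith) hFm hc'))
  refine ⟨max (max d₁ d₂) 3, fun d hd hdB Ω _ μ _ S hm hi hp => ?_⟩
  have hdd1 : d₁ ≤ d := (le_max_left _ _).trans ((le_max_left _ _).trans hd)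
  have hdd2 : d₂ ≤ d := (le_max_right _ _).trans ((le_max_left _ _).trans hd)
  have hd3 : 3 ≤ d := (le_max_right _ _).trans hd
  have hdR : (3 : ℝ) ≤ d := by exact_mod_cast hd3
  have hd0 : (0 : ℝ) < d := by linarith
  obtain ⟨g1, g2, g3, g4, g5, g6, g7, g8, g9, g10, g11, g12⟩ := hd₂ d hdd2
  set L : ℝ := Real.log (d : ℝ) with hL
  have hL0 : 0 < L := by linarith
  have hexpL : Real.exp L = d := Real.exp_log hd0
  set F : ℝ := ∏ p ∈ d.primeFactors, (1 - (p : ℝ)⁻¹)⁻¹ with hF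
  have hpD : ∀ p ∈ d.primeFactors, p.Prime := fun p hp => Nat.prime_of_mem_primeFactors hp
  have hF1 : 1 ≤ F := one_le_prod _ hpD
  have hF2 : F ≤ Fm := prod_le_exp _ hpD B hdB
  have hF0 : 0 < F := by linarith
  have htot : (d.totient : ℝ) = d / F := by
    rw [eq_div_iff hF0.ne']; exact totient_prod d (by omega)
  have hKe : c0 * ((d.totient : ℝ) * L ^ 2) / d = c0 * L ^ 2 / F := by
    rw [htot]; field_simp
  rw [hKe]
  set K : ℕ := ⌊c0 * L ^ 2 / F⌋₊ with hK
  have hx0 : 0 ≤ c0 * L ^ 2 / F := by positivity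
  have hM1 : c0 * L ^ 2 / F ≤ ((K + 1 : ℕ) : ℝ) := by
    push_cast
    exact (Nat.lt_floor_add_one _).le
  have hM2 : ((K + 1 : ℕ) : ℝ) ≤ c0 * L ^ 2 / F + 1 := by
    push_cast
    linarith [Nat.floor_le hx0]
  set M : ℕ := K + 1 with hMdef
  have hFmF : c0 * L ^ 2 / Fm ≤ c0 * L ^ 2 / F := div_le_div_of_nonneg_left (by positivity) hF0 hF2
  have hM3 : c0 * L ^ 2 / Fm ≤ (M : ℝ) := hFmF.trans hM1
  have hM4 : (M : ℝ) ≤ c0 * L ^ 2 + 1 := by
    refine hM2.trans ?_
    have : c0 * L ^ 2 / F ≤ c0 * L ^ 2 := div_le_self (by positivity) hF1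
    linarith
  have hMF : (M : ℝ) * F ≤ (1 + δ) * (c0 * L ^ 2) := by
    have h1 : (M : ℝ) * F ≤ (c0 * L ^ 2 / F + 1) * F := mul_le_mul_of_nonneg_right hM2 hF0.le
    have h2 : (c0 * L ^ 2 / F + 1) * F = c0 * L ^ 2 + F := by field_simp
    linarith
  have hMpos : (2 : ℝ) ≤ M := g12.trans hM3
  have hlogM : 2 * (1 - δ) * Real.log L ≤ Real.log M :=
    g3.trans (Real.log_le_log (by positivity) hM3)
  have hlogM0 : 0 < Real.log M := Real.log_pos (by linarith)
  -- the sieving primes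
  set y : ℕ := ⌊c' * L⌋₊ with hy
  have hy1 : (y : ℝ) ≤ c' * L := Nat.floor_le (by positivity)
  have hy2 : c' * L / 2 ≤ y := by
    have := Nat.lt_floor_add_one (c' * L)
    linarith
  have hMκ : (M : ℝ) ≤ 12 / c' ^ 2 * (y : ℝ) ^ 2 := by
    have h1 : (c' * L / 2) ^ 2 ≤ (y : ℝ) ^ 2 := pow_le_pow_left₀ (by positivity) hy2 2
    have h2 : 12 / c' ^ 2 * (c' * L / 2) ^ 2 = 3 * L ^ 2 := by field_simp; ring
    have h3 : 12 / c' ^ 2 * (c' * L / 2) ^ 2 ≤ 12 / c' ^ 2 * (y : ℝ) ^ 2 :=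
      mul_le_mul_of_nonneg_left h1 (by positivity)
    nlinarith
  have hMM : M₀ ≤ M := by
    have : (M₀ : ℝ) ≤ M := g2.trans hM3
    exact_mod_cast this
  have hN := hM₀ M hMM y hMκ d.primeFactors hpD hdB
  classical
  set Q : ℕ := ∏ p ∈ (range (y + 1)).filter (fun p => p.Prime ∧ ¬ p ∣ d), p with hQ
  have hQ1 : 1 ≤ Q := by
    apply Nat.succ_le_of_lt
    apply Finset.prod_pos
    intro p hp
    exact (mem_filter.mp hp).2.1.pos
  have hQη : (Q : ℝ) ≤ (d : ℝ) ^ η := by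
    have h1 : Q ≤ 4 ^ y := by
      refine le_trans ?_ (primorial_le_four_pow y)
      unfold primorial
      apply Finset.prod_le_prod_of_subset_of_one_le'
      · intro p hp
        rw [mem_filter] at hp ⊢
        exact ⟨hp.1, hp.2.1⟩
      · intro p hp _
        exact (mem_filter.mp hp).2.one_le
    have h2 : (Q : ℝ) ≤ (4 : ℝ) ^ y := by exact_mod_cast h1
    refine h2.trans ?_
    rw [Real.rpow_def_of_pos hd0, ← Real.rpow_natCast, Real.rpow_def_of_pos (by norm_num)]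
    apply Real.exp_le_exp.mpr
    calc Real.log 4 * (y : ℝ) ≤ Real.log 4 * (c' * L) := mul_le_mul_of_nonneg_left hy1 hl4.le
      _ = (c' * Real.log 4) * L := by ring
      _ ≤ η * L := mul_le_mul_of_nonneg_right hc'2 hL0.le
      _ = L * η := by ring
  have hQd : Nat.Coprime Q d := by
    apply Nat.Coprime.prod_left
    intro p hp
    rw [mem_filter] at hp
    exact (Nat.Prime.coprime_iff_not_dvd hp.2.1).mpr hp.2.2
  have hQy : ∀ p : ℕ, p.Prime → p ≤ y → ¬ p ∣ d → p ∣ Q := by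
    intro p hp hpy hpd
    exact Finset.dvd_prod_of_mem _ (mem_filter.mpr ⟨mem_range.mpr (by omega), hp, hpd⟩)
  have hlogd2 : Real.log ((d : ℝ) / 2) = L - Real.log 2 := Real.log_div hd0.ne' (by norm_num)
  have hyA : (y : ℝ) ≤ A * Real.log ((d : ℝ) / 2) := by
    rw [hlogd2]
    have : c' * L ≤ A / 2 * L := mul_le_mul_of_nonneg_right hc'1 hL0.le
    nlinarith
  -- the weight
  set W : ℝ := WW A d M with hW
  have hLl2 : 0 < L - Real.log 2 := by
    have := Real.log_pos (show (1 : ℝ) < 2 by norm_num)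
    linarith
  have hW0 : 0 ≤ W := by
    rw [hW]; unfold WW
    have h1 := one_le_VV ⌊A * Real.log ((M : ℝ) * d)⌋₊
    rw [hlogd2]
    positivity
  have hWle : W ≤ (1 + δ) ^ 2 * GG * Real.log L / L := by
    rw [hW]; unfold WW
    rw [hlogd2]
    have h1 : Real.log ((M : ℝ) * d) ≤ 2 * L := by
      rw [Real.log_mul (by linarith) hd0.ne']
      have h2 : (M : ℝ) ≤ d := hM4.trans (g11.trans (le_of_eq hexpL))
      have h3 := Real.log_le_log (by linarith) h2
      linarith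
    have h2 : VV ⌊A * Real.log ((M : ℝ) * d)⌋₊ ≤ (1 + δ) * GG * Real.log L := by
      refine (VV_mono (Nat.floor_le_floor ?_)).trans g4
      nlinarith
    rw [div_le_div_iff₀ hLl2 hL0]
    calc VV ⌊A * Real.log ((M : ℝ) * d)⌋₊ * L ≤ ((1 + δ) * GG * Real.log L) * ((1 + δ) * (L - Real.log 2)) :=
          mul_le_mul h2 g5 hL0.le (by positivity)
      _ = _ := by ring
  have hWδ : W ≤ δ / (1 + δ) := hWle.trans g6
  have hW1 : W < 1 := by
    refine lt_of_le_of_lt hWδ ?_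
    rw [div_lt_one (by positivity)]; linarith
  have hinv : 1 / (1 - W) ≤ 1 + δ := by
    rw [div_le_iff₀ (by linarith)]
    rw [le_div_iff₀ (by positivity)] at hWδ
    nlinarith
  -- the exponent
  set N : ℝ := ((NQ d.primeFactors y M).card : ℝ) with hNdef
  have hN0 : 0 ≤ N := Nat.cast_nonneg _
  have hNle : N ≤ (1 + δ) ^ 2 * (c0 * L ^ 2) / (2 * (1 - δ) * Real.log L) := by
    refine hN.trans ?_
    calc (1 + δ) * ((M : ℝ) / Real.log M) * F = (1 + δ) * (M * F) / Real.log M := by ring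
      _ ≤ (1 + δ) * ((1 + δ) * (c0 * L ^ 2)) / (2 * (1 - δ) * Real.log L) := by
          apply div_le_div₀ (by positivity) _ _ hlogM
          · exact mul_le_mul_of_nonneg_left hMF (by linarith)
          · have : 0 < 1 - δ := by linarith
            positivity
      _ = _ := by ring
  have hexp : N * W / (1 - W) ≤ (1 - 2 * η) * L := by
    have h1δ : 0 < 1 - δ := by linarith
    calc N * W / (1 - W) = N * W * (1 / (1 - W)) := by ring
      _ ≤ ((1 + δ) ^ 2 * (c0 * L ^ 2) / (2 * (1 - δ) * Real.log L)) *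
            ((1 + δ) ^ 2 * GG * Real.log L / L) * (1 + δ) := by
          apply mul_le_mul _ hinv _ _
          · exact mul_le_mul hNle hWle hW0 (by positivity)
          · have : 0 < 1 - W := by linarith
            positivity
          · positivity
      _ = (1 + δ) ^ 5 / (1 - δ) * (c0 * GG / 2) * L := by
          field_simp
      _ ≤ (1 - 2 * η) * L := by
          apply mul_le_mul_of_nonneg_right _ hL0.le
          have h2 : c0 * GG / 2 ≤ 1 - ε / 2 := by
            have h3 : c0 * GG = 2 - ε * GG := by rw [hc0def]; field_simp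
            rw [h3]; nlinarith
          have h3 : (1 + δ) ^ 5 / (1 - δ) ≤ 1 + 8 * δ := by
            rw [div_le_iff₀ h1δ]
            have e : (1 + 8 * δ) * (1 - δ) - (1 + δ) ^ 5 = δ * (2 - 18 * δ - 10 * δ ^ 2 - 5 * δ ^ 3 - δ ^ 4) := by
              ring
            have h4 : 0 ≤ 2 - 18 * δ - 10 * δ ^ 2 - 5 * δ ^ 3 - δ ^ 4 := by
              have a1 : δ ^ 2 ≤ (1 / 100) ^ 2 := pow_le_pow_left₀ hδ.le hδ1 2
              have a2 : δ ^ 3 ≤ (1 / 100) ^ 3 := pow_le_pow_left₀ hδ.le hδ1 3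
              have a3 : δ ^ 4 ≤ (1 / 100) ^ 4 := pow_le_pow_left₀ hδ.le hδ1 4
              norm_num at a1 a2 a3
              linarith
            have h5 := mul_nonneg hδ.le h4
            linarith
          have h4 : 0 ≤ c0 * GG / 2 := by positivity
          calc (1 + δ) ^ 5 / (1 - δ) * (c0 * GG / 2) ≤ (1 + 8 * δ) * (1 - ε / 2) :=
                mul_le_mul h3 h2 h4 (by linarith)
            _ ≤ 1 - 2 * η := by
                rw [hδdef, hηdef]; nlinarith
  exact hd₁ d hdd1 Q y K hQ1 hQη hQd hQy hyA hW1 hexp Ω μ S hm hi hp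

end Pool.Agent.T2H53.GW
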