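import Mathlib

set_option autoImplicit false

/-! # Independent events with given probabilities exist -/

namespace Pool.Agent.T2H53.GW

open MeasureTheory ProbabilityTheory

/-- the two-point measure -/
noncomputable def bern (p : ℝ) : Measure Bool :=
  ENNReal.ofReal p • Measure.dirac true + ENNReal.ofReal (1 - p) • Measure.dirac false

lemma bern_prob {p : ℝ} (h0 : 0 ≤ p) (h1 : p ≤ 1) : IsProbabilityMeasure (bern p) := by
  constructor
  unfold bern
  rw [Measure.add_apply, Measure.smul_apply, Measure.smul_apply, Measure.dirac_apply, Measure.dirac_apply]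
  simp only [Set.indicator_univ, Pi.one_apply, smul_eq_mul, mul_one]
  rw [← ENNReal.ofReal_add h0 (by linarith)]
  simp

lemma bern_true {p : ℝ} : bern p {true} = ENNReal.ofReal p := by
  unfold bern
  rw [Measure.add_apply, Measure.smul_apply, Measure.smul_apply, Measure.dirac_apply, Measure.dirac_apply]
  simp

theorem exists_model (p : ℕ → ℝ) (h0 : ∀ n, 0 ≤ p n) (h1 : ∀ n, p n ≤ 1) :
    ∃ (μ : Measure (ℕ → Bool)) (S : ℕ → Set (ℕ → Bool)), IsProbabilityMeasure μ ∧
      (∀ n, MeasurableSet (S n)) ∧ iIndepSet S μ ∧ ∀ n, μ (S n) = ENNReal.ofReal (p n) := by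
  have hp : ∀ n, IsProbabilityMeasure (bern (p n)) := fun n => bern_prob (h0 n) (h1 n)
  have hm : ∀ n : ℕ, MeasurableSet {x : ℕ → Bool | x n ∈ ({true} : Set Bool)} := fun n =>
    (measurable_pi_apply n) (MeasurableSet.singleton true)
  have hpi : ∀ s : Finset ℕ, Measure.infinitePi (fun n => bern (p n))
      (⋂ i ∈ s, {x : ℕ → Bool | x i ∈ ({true} : Set Bool)}) = ∏ i ∈ s, ENNReal.ofReal (p i) := by
    intro s
    have h2 := Measure.infinitePi_pi (μ := fun n => bern (p n)) (s := s) (t := fun _ => ({true} : Set Bool))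
      (fun _ _ => MeasurableSet.singleton true)
    have h3 : (⋂ i ∈ s, {x : ℕ → Bool | x i ∈ ({true} : Set Bool)}) =
        Set.pi (s : Set ℕ) (fun _ => ({true} : Set Bool)) := by
      ext x
      simp only [Set.mem_iInter, Set.mem_ofPred_eq, Set.mem_pi, Finset.mem_coe]
    rw [h3, h2]
    exact Finset.prod_congr rfl fun i _ => bern_true
  have hone : ∀ n, Measure.infinitePi (fun n => bern (p n)) {x : ℕ → Bool | x n ∈ ({true} : Set Bool)} =
      ENNReal.ofReal (p n) := by
    intro n
    have := hpi {n}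
    simpa using this
  refine ⟨Measure.infinitePi (fun n => bern (p n)), fun n => {x | x n ∈ ({true} : Set Bool)},
    inferInstance, hm, ?_, hone⟩
  rw [iIndepSet_iff_meas_biInter hm]
  intro s
  rw [hpi s]
  exact Finset.prod_congr rfl fun i _ => (hone i).symm

end Pool.Agent.T2H53.GW
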