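import Mathlib
import Pool.Agent.T2H53.GW.Low

set_option autoImplicit false

/-! # Every reduced class contains a point, almost surely; the density of the good moduli -/

namespace Pool.Agent.T2H53.GW

open Finset Filter Topology MeasureTheory ProbabilityTheory

open Pool.Agent.H305R2 (VV VV_tendsto)

lemma pr_prime (A : ℝ) : ∀ᶠ n : ℕ in atTop, n.Prime → 1 / Real.log n ≤ pr A n := by
  have hT : Tendsto (fun n : ℕ => (n : ℝ)) atTop atTop := tendsto_natCast_atTop_atTop
  have t1 : Tendsto (fun n : ℕ => Real.log (n : ℝ) / (n : ℝ) ^ (1 : ℝ)) atTop (𝓝 0) :=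
    ((isLittleO_log_rpow_atTop (show (0 : ℝ) < 1 by norm_num)).tendsto_div_nhds_zero).comp hT
  filter_upwards [t1.eventually (eventually_lt_nhds (show (0 : ℝ) < 1 / (|A| + 1) by positivity)),
    hT.eventually_ge_atTop 3] with n h1 h2 hp
  have hn0 : (0 : ℝ) < n := by linarith
  rw [Real.rpow_one, div_lt_div_iff₀ hn0 (by positivity)] at h1
  have hl : 1 ≤ Real.log n := by
    rw [Real.le_log_iff_exp_le hn0]
    have := Real.exp_one_lt_d9
    linarith
  have h3 : A * Real.log n < n := by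
    have := le_abs_self A
    nlinarith
  unfold pr
  rw [if_pos]
  · apply le_min
    · rw [div_le_one (by linarith)]; exact hl
    · exact div_le_div_of_nonneg_right (one_le_VV _) (by linarith)
  · intro q hq hqn hdvd
    have : q = n := (Nat.prime_dvd_prime_iff_eq hq hp).mp hdvd
    rw [this] at hqn
    linarith

lemma not_summable_class (A : ℝ) (d a : ℕ) (hd : 0 < d) (had : Nat.Coprime a d) :
    ¬ Summable fun n : ℕ => if n % d = a % d then pr A n else 0 := by
  intro H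
  have : NeZero d := ⟨hd.ne'⟩
  have hu : IsUnit (a : ZMod d) := (ZMod.isUnit_iff_coprime a d).mpr had
  apply ArithmeticFunction.vonMangoldt.not_summable_residueClass_prime_div hu
  have hT : Tendsto (fun n : ℕ => (n : ℝ)) atTop atTop := tendsto_natCast_atTop_atTop
  have t1 : Tendsto (fun n : ℕ => Real.log (n : ℝ) / (n : ℝ) ^ (1 / 2 : ℝ)) atTop (𝓝 0) :=
    ((isLittleO_log_rpow_atTop (show (0 : ℝ) < 1 / 2 by norm_num)).tendsto_div_nhds_zero).comp hT
  refine Summable.of_norm_bounded_eventually_nat H ?_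
  filter_upwards [pr_prime A, t1.eventually (eventually_lt_nhds (show (0 : ℝ) < 1 by norm_num)),
    hT.eventually_ge_atTop 3] with n h1 h2 h3
  have hn0 : (0 : ℝ) < n := by linarith
  by_cases hp : n.Prime
  · rw [if_pos hp]
    unfold ArithmeticFunction.vonMangoldt.residueClass
    by_cases hna : (n : ZMod d) = (a : ZMod d)
    · have hmem : n ∈ {n : ℕ | (n : ZMod d) = (a : ZMod d)} := hna
      rw [Set.indicator_of_mem hmem]
      have hmod : n % d = a % d := (ZMod.natCast_eq_natCast_iff' n a d).mp hna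
      rw [if_pos hmod, ArithmeticFunction.vonMangoldt_apply_prime hp]
      have hl : 0 < Real.log n := Real.log_pos (by linarith)
      rw [Real.norm_of_nonneg (by positivity)]
      refine le_trans ?_ (h1 hp)
      rw [div_le_div_iff₀ hn0 hl, one_mul]
      have hs : 0 < (n : ℝ) ^ (1 / 2 : ℝ) := Real.rpow_pos_of_pos hn0 _
      rw [div_lt_one hs] at h2
      have hss : (n : ℝ) ^ (1 / 2 : ℝ) * (n : ℝ) ^ (1 / 2 : ℝ) = n := by
        rw [← Real.rpow_add hn0]; norm_num
      nlinarith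
    · have hmem : n ∉ {n : ℕ | (n : ZMod d) = (a : ZMod d)} := hna
      rw [Set.indicator_of_notMem hmem]
      simp only [zero_div, norm_zero]
      split_ifs
      · exact pr_nonneg A n
      · exact le_rfl
  · rw [if_neg hp]
    simp only [zero_div, norm_zero]
    split_ifs
    · exact pr_nonneg A n
    · exact le_rfl

theorem class_nonempty (A : ℝ) (d a : ℕ) (hd : 0 < d) (had : Nat.Coprime a d)
    {Ω : Type*} [MeasurableSpace Ω] {μ : Measure Ω} [IsProbabilityMeasure μ] {S : ℕ → Set Ω}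
    (hm : ∀ n, MeasurableSet (S n)) (hi : iIndepSet S μ) (hp : ∀ n, μ.real (S n) = pr A n) :
    ∀ᵐ ω ∂μ, ∃ n : ℕ, n % d = a % d ∧ ω ∈ S n := by
  classical
  have hns := not_summable_class A d a hd had
  rw [not_summable_iff_tendsto_nat_atTop_of_nonneg (fun n => by
    split_ifs
    · exact pr_nonneg A n
    · exact le_rfl)] at hns
  rw [ae_iff]
  have h1 : ∀ N : ℕ, μ.real {ω | ¬ ∃ n : ℕ, n % d = a % d ∧ ω ∈ S n} ≤
      Real.exp (-(∑ n ∈ range N, if n % d = a % d then pr A n else 0)) := by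
    intro N
    have h2 := some_empty_le hm hi {0} (fun _ => (range N).filter fun n => n % d = a % d)
      (∑ n ∈ range N, if n % d = a % d then pr A n else 0) (fun _ _ => by
        rw [← sum_filter]
        exact (sum_congr rfl fun n _ => (hp n).symm).le)
    simp only [card_singleton, Nat.cast_one, one_mul] at h2
    refine le_trans (measureReal_mono ?_ (measure_ne_top _ _)) h2
    intro ω hω
    simp only [Finset.mem_singleton, Set.iUnion_iUnion_eq_left]
    intro hc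
    apply hω
    unfold HF at hc
    simp only [Set.mem_iUnion, mem_filter] at hc
    obtain ⟨n, ⟨_, hn⟩, hn2⟩ := hc
    exact ⟨n, hn, hn2⟩
  have h3 : μ.real {ω | ¬ ∃ n : ℕ, n % d = a % d ∧ ω ∈ S n} ≤ 0 :=
    ge_of_tendsto' (Real.tendsto_exp_neg_atTop_nhds_zero.comp hns) h1
  have h4 := le_antisymm h3 measureReal_nonneg
  rw [measureReal_eq_zero_iff] at h4
  exact h4

/-! ## the density -/

lemma sum_sqrt_le : ∃ C : ℝ, 0 < C ∧ ∀ x : ℕ, ∑ d ∈ Icc 1 x, ∑ p ∈ d.primeFactors, (Real.sqrt p)⁻¹ ≤ C * x := by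
  classical
  have hs : Summable fun n : ℕ => ((n : ℝ) ^ (3 / 2 : ℝ))⁻¹ := by
    rw [Real.summable_nat_rpow_inv]; norm_num
  refine ⟨∑' n : ℕ, ((n : ℝ) ^ (3 / 2 : ℝ))⁻¹ + 1, ?_, fun x => ?_⟩
  · have : 0 ≤ ∑' n : ℕ, ((n : ℝ) ^ (3 / 2 : ℝ))⁻¹ := tsum_nonneg fun n => by positivity
    linarith
  have h1 : ∀ d ∈ Icc 1 x, ∑ p ∈ d.primeFactors, (Real.sqrt p)⁻¹ ≤
      ∑ p ∈ Icc 1 x, if p ∣ d then (Real.sqrt p)⁻¹ else 0 := by
    intro d hd
    rw [mem_Icc] at hd
    rw [← sum_filter]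
    apply sum_le_sum_of_subset_of_nonneg
    · intro p hp
      rw [Nat.mem_primeFactors] at hp
      rw [mem_filter, mem_Icc]
      exact ⟨⟨hp.1.one_le, (Nat.le_of_dvd (by omega) hp.2.1).trans hd.2⟩, hp.2.1⟩
    · intro p _ _
      positivity
  refine (sum_le_sum h1).trans ?_
  rw [sum_comm]
  have h2 : ∀ p ∈ Icc 1 x, ∑ d ∈ Icc 1 x, (if p ∣ d then (Real.sqrt p)⁻¹ else 0) ≤
      x * ((p : ℝ) ^ (3 / 2 : ℝ))⁻¹ := by
    intro p hp
    rw [mem_Icc] at hp
    have hp0 : (0 : ℝ) < p := by exact_mod_cast hp.1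
    rw [← sum_filter, sum_const, nsmul_eq_mul]
    have h3 : ((Icc 1 x).filter fun d => p ∣ d).card = x / p := by
      rw [show (Icc 1 x) = Ioc 0 x by ext; simp [Nat.succ_le_iff]]
      exact Nat.Ioc_filter_dvd_card_eq_div x p
    rw [h3]
    have h4 : ((x / p : ℕ) : ℝ) ≤ (x : ℝ) / p := Nat.cast_div_le
    have h5 : 0 ≤ (Real.sqrt p)⁻¹ := by positivity
    refine (mul_le_mul_of_nonneg_right h4 h5).trans (le_of_eq ?_)
    have h6 : (p : ℝ) ^ (3 / 2 : ℝ) = p * Real.sqrt p := by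
      rw [Real.sqrt_eq_rpow, show (3 / 2 : ℝ) = 1 + 1 / 2 by norm_num, Real.rpow_add hp0, Real.rpow_one]
    rw [h6, mul_inv, div_eq_mul_inv, mul_assoc]
  refine (sum_le_sum h2).trans ?_
  rw [← mul_sum, mul_comm]
  apply mul_le_mul_of_nonneg_right _ (Nat.cast_nonneg x)
  have h7 := hs.sum_le_tsum (Icc 1 x) (fun n _ => by positivity)
  linarith

/-- the number of moduli with `∑ 1/√p > B` -/
lemma card_bad_le : ∃ C : ℝ, 0 < C ∧ ∀ (B : ℝ) (x : ℕ), 0 < B →
    (((Icc 1 x).filter fun d : ℕ => B < ∑ p ∈ d.primeFactors, (Real.sqrt p)⁻¹).card : ℝ) ≤ C * x / B := by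
  obtain ⟨C, hC, h⟩ := sum_sqrt_le
  refine ⟨C, hC, fun B x hB => ?_⟩
  rw [le_div_iff₀ hB]
  refine le_trans ?_ (h x)
  calc (((Icc 1 x).filter fun d : ℕ => B < ∑ p ∈ d.primeFactors, (Real.sqrt p)⁻¹).card : ℝ) * B
      = ∑ d ∈ (Icc 1 x).filter (fun d : ℕ => B < ∑ p ∈ d.primeFactors, (Real.sqrt p)⁻¹), B := by
        rw [sum_const, nsmul_eq_mul]
    _ ≤ ∑ d ∈ (Icc 1 x).filter (fun d : ℕ => B < ∑ p ∈ d.primeFactors, (Real.sqrt p)⁻¹),
          ∑ p ∈ d.primeFactors, (Real.sqrt p)⁻¹ := sum_le_sum fun d hd => (mem_filter.mp hd).2.le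
    _ ≤ _ := sum_le_sum_of_subset_of_nonneg (filter_subset _ _) fun d _ _ =>
        sum_nonneg fun p _ => by positivity

end Pool.Agent.T2H53.GW
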