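import Mathlib
import Pool.Agent.T2H53.GW.LowB

set_option autoImplicit false

/-! # Primorials: facts and the lower bound -/

namespace Pool.Agent.T2H53.GW

open Finset Filter Topology MeasureTheory ProbabilityTheory

open Pool.Agent.H305R2 (VV VV_tendsto)

lemma VV_ev' (a δ : ℝ) (ha : 0 < a) (hδ : 0 < δ) (hδ1 : δ ≤ 1) : ∀ᶠ x : ℝ in atTop,
    (1 - δ) * GG * Real.log x ≤ VV ⌊a * x⌋₊ := by
  have hG := one_lt_GG
  have h1 : ∀ᶠ n : ℕ in atTop, (1 - δ / 3) * GG < VV n / Real.log n := by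
    have := VV_tendsto
    refine this.eventually (eventually_gt_nhds ?_)
    change _ < GG
    nlinarith
  have t1 : Tendsto (fun x : ℝ => ⌊a * x⌋₊) atTop atTop :=
    tendsto_nat_floor_atTop.comp (tendsto_id.const_mul_atTop ha)
  filter_upwards [t1.eventually h1, t1.eventually_ge_atTop 2, eventually_gt_atTop (1 : ℝ),
    Real.tendsto_log_atTop.eventually_ge_atTop (3 * |Real.log (a / 2)| / δ),
    (tendsto_id.const_mul_atTop ha).eventually_ge_atTop 2] with x h2 h3 h4 h5 h55
  simp only [id] at h55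
  have hx0 : 0 < x := by linarith
  have hlx : 0 < Real.log x := Real.log_pos h4
  have h6 : (2 : ℝ) ≤ (⌊a * x⌋₊ : ℝ) := by exact_mod_cast h3
  have hln : 0 < Real.log (⌊a * x⌋₊ : ℝ) := Real.log_pos (by linarith)
  rw [lt_div_iff₀ hln] at h2
  have h7 : Real.log (a / 2) + Real.log x ≤ Real.log (⌊a * x⌋₊ : ℝ) := by
    rw [← Real.log_mul (by positivity) hx0.ne']
    apply Real.log_le_log (by positivity)
    have := Nat.lt_floor_add_one (a * x)
    linarith
  have h8 : -(δ / 3 * Real.log x) ≤ Real.log (a / 2) := by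
    rw [div_le_iff₀ hδ] at h5
    have := neg_abs_le (Real.log (a / 2))
    linarith
  have h9 : (1 - δ / 3) * Real.log x ≤ Real.log (⌊a * x⌋₊ : ℝ) := by linarith
  have h10 : 0 < 1 - δ / 3 := by linarith
  calc (1 - δ) * GG * Real.log x ≤ ((1 - δ / 3) * (1 - δ / 3)) * (GG * Real.log x) := by
        rw [mul_assoc]
        apply mul_le_mul_of_nonneg_right _ (by positivity)
        nlinarith
    _ = (1 - δ / 3) * GG * ((1 - δ / 3) * Real.log x) := by ring
    _ ≤ (1 - δ / 3) * GG * Real.log (⌊a * x⌋₊ : ℝ) :=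
        mul_le_mul_of_nonneg_left h9 (by positivity)
    _ ≤ VV ⌊a * x⌋₊ := h2.le

lemma primeFactors_primorial' (y : ℕ) : (primorial y).primeFactors = (Icc 1 y).filter Nat.Prime := by
  rw [primeFactors_primorial]
  ext p
  simp only [Nat.mem_primesLE, mem_filter, mem_Icc]
  constructor
  · rintro ⟨h1, h2⟩; exact ⟨⟨h2.one_le, h1⟩, h2⟩
  · rintro ⟨⟨_, h1⟩, h2⟩; exact ⟨h1, h2⟩

lemma totient_primorial (y : ℕ) : ((primorial y).totient : ℝ) = primorial y / VV y := by
  have h := totient_prod (primorial y) (primorial_pos y)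
  rw [primeFactors_primorial'] at h
  have h2 : 0 < VV y := by linarith [one_le_VV y]
  rw [eq_div_iff h2.ne']
  exact h

lemma card_NQ_le_self (D : Finset ℕ) (y M : ℕ) : (NQ D y M).card ≤ M := by
  classical
  have h1 : (NQ D y M).card ≤ (Icc 1 M).card := card_le_card fun m hm => by
    rw [NQ, mem_filter] at hm
    exact hm.1
  rw [Nat.card_Icc] at h1
  omega

/-- facts on `L = log (y#)` -/
def FP (A a' δ : ℝ) (y : ℕ) (L : ℝ) : Prop :=
  (y : ℝ) / 2 ≤ L ∧ L ≤ 2 * y ∧ (1 - δ) * GG * Real.log y ≤ VV y ∧ VV y ≤ (1 + δ) * GG * Real.log y ∧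
  Real.log L ≤ (1 + δ) * Real.log y ∧ (1 - δ) * Real.log y ≤ Real.log L ∧
  VV ⌊a' * L⌋₊ ≤ (1 + δ) * GG * Real.log L ∧ (1 - δ) * GG * Real.log L ≤ VV ⌊A * L⌋₊ ∧
  L ≤ (1 + δ) * (L - Real.log 2) ∧ (1 + δ) ^ 2 * GG * Real.log L / L ≤ δ / (1 + δ) ∧
  1 < L ∧ 0 < Real.log L ∧ 2 * L ^ 2 + 1 ≤ Real.exp L ∧ 0 < Real.log y ∧
  Real.log (2 * L ^ 2 + 1) ≤ δ * L ∧ (a' + 4) * VV y ≤ δ * L

lemma ev_FP (A a' δ : ℝ) (hA : 0 < A) (ha' : 0 < a') (hδ : 0 < δ) (hδ1 : δ ≤ 1) :
    ∀ᶠ y : ℕ in atTop, FP A a' δ y (Real.log (primorial y)) := by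
  have hG := one_lt_GG
  have hT : Tendsto (fun y : ℕ => (y : ℝ)) atTop atTop := tendsto_natCast_atTop_atTop
  have hLe : ∀ y : ℕ, Real.log (primorial y) = Chebyshev.theta y := by
    intro y
    rw [Chebyshev.theta_eq_log_primorial, Nat.floor_natCast]
  have hθ := Pool.Agent.Helper923.PNT.theta_div_tendsto.comp hT
  have h1 : ∀ᶠ y : ℕ in atTop, (y : ℝ) / 2 ≤ Real.log (primorial y) := by
    filter_upwards [hθ.eventually (eventually_gt_nhds (show (1 / 2 : ℝ) < 1 by norm_num)),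
      hT.eventually_gt_atTop 0] with y h h0
    simp only [Function.comp] at h
    rw [lt_div_iff₀ h0] at h
    rw [hLe]; linarith
  have hL : Tendsto (fun y : ℕ => Real.log (primorial y)) atTop atTop :=
    tendsto_atTop_mono' _ h1 (hT.atTop_div_const (by norm_num))
  have hlogy : Tendsto (fun y : ℕ => Real.log (y : ℝ)) atTop atTop := Real.tendsto_log_atTop.comp hT
  have h2 : ∀ᶠ y : ℕ in atTop, (1 - δ) * GG < VV y / Real.log y := by
    refine VV_tendsto.eventually (eventually_gt_nhds ?_)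
    change _ < GG
    nlinarith
  have h3 : ∀ᶠ y : ℕ in atTop, VV y / Real.log y < (1 + δ) * GG := by
    refine VV_tendsto.eventually (eventually_lt_nhds ?_)
    change GG < _
    nlinarith
  have t6 : Tendsto (fun L : ℝ => Real.log L / L) atTop (𝓝 0) := by
    have h := (isLittleO_log_rpow_atTop (show (0 : ℝ) < 1 by norm_num)).tendsto_div_nhds_zero
    simpa using h
  have t7 : Tendsto (fun L : ℝ => L ^ 2 / Real.exp L) atTop (𝓝 0) := by
    have h := Real.tendsto_pow_mul_exp_neg_atTop_nhds_zero 2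
    refine h.congr fun x => ?_
    rw [Real.exp_neg]; rfl
  have hpos : 0 < δ / (1 + δ) / ((1 + δ) ^ 2 * GG) := by positivity
  have hpos2 : 0 < δ / (2 * ((a' + 4) * ((1 + δ) * GG) * 2)) := by positivity
  filter_upwards [h1, h2, h3, hL.eventually (VV_ev a' δ ha' hδ hδ1), hL.eventually (VV_ev' A δ hA hδ hδ1),
    hL.eventually_ge_atTop ((1 + δ) * Real.log 2 / δ), hL.eventually (t6.eventually (eventually_lt_nhds hpos)),
    hL.eventually_gt_atTop 1, hlogy.eventually_ge_atTop (Real.log 2 / δ), hT.eventually_gt_atTop 2,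
    hL.eventually (t7.eventually (eventually_lt_nhds (show (0 : ℝ) < 1 / 4 by norm_num))),
    hL.eventually_gt_atTop 3, hL.eventually (t6.eventually (eventually_lt_nhds (show (0 : ℝ) < δ / 4 by positivity))),
    hL.eventually_ge_atTop (4 / δ), (t6.comp hT).eventually (eventually_lt_nhds hpos2)]
    with y k1 k2 k3 k4 k5 k6 k7 k8 k9 k10 k11 k12 k13 k14 k15
  simp only [Function.comp] at k15
  set L : ℝ := Real.log (primorial y) with hLdef
  have hL0 : 0 < L := by linarith
  have hy0 : (0 : ℝ) < y := by linarith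
  have hly : 0 < Real.log (y : ℝ) := Real.log_pos (by linarith)
  have hlL : 0 < Real.log L := Real.log_pos k8
  have hl2 : 0 < Real.log 2 := Real.log_pos (by norm_num)
  have e2 : L ≤ 2 * y := by
    have h := Chebyshev.theta_le_log4_mul_x (x := (y : ℝ)) hy0.le
    rw [← hLe] at h
    have h4 : Real.log 4 < 2 := by
      have : Real.log 4 = 2 * Real.log 2 := by
        rw [show (4 : ℝ) = 2 ^ 2 by norm_num, Real.log_pow]; norm_num
      rw [this]; linarith [Real.log_two_lt_d9]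
    nlinarith
  have e9 : Real.log 2 ≤ δ * Real.log y := by
    rw [div_le_iff₀ hδ] at k9; linarith
  rw [lt_div_iff₀ hly] at k2
  rw [div_lt_iff₀ hly] at k3
  refine ⟨k1, e2, k2.le, k3.le, ?_, ?_, k4, k5, ?_, ?_, k8, hlL, ?_, hly, ?_, ?_⟩
  · have := Real.log_le_log hL0 e2
    rw [Real.log_mul (by norm_num) hy0.ne'] at this
    linarith
  · have := Real.log_le_log (by positivity) k1
    rw [Real.log_div hy0.ne' (by norm_num)] at this
    linarith
  · rw [div_le_iff₀ hδ] at k6; linarith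
  · have h13 := k7.le
    rw [div_div, le_div_iff₀ (by positivity)] at h13
    have e : (1 + δ) ^ 2 * GG * Real.log L / L = (Real.log L / L) * ((1 + δ) ^ 2 * GG) := by ring
    rw [e, le_div_iff₀ (by positivity)]
    have e2 : Real.log L / L * ((1 + δ) ^ 2 * GG) * (1 + δ) =
      Real.log L / L * ((1 + δ) * ((1 + δ) ^ 2 * GG)) := by ring
    rw [e2]; exact h13
  · rw [div_lt_div_iff₀ (Real.exp_pos L) (by norm_num)] at k11
    nlinarith
  · have h5 : 2 * L ^ 2 + 1 ≤ L ^ 3 := by nlinarith [sq_nonneg L]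
    have h6 := Real.log_le_log (by positivity) h5
    rw [Real.log_pow] at h6
    rw [div_lt_iff₀ hL0] at k13
    push_cast at h6
    linarith
  · rw [div_lt_div_iff₀ hy0 (by positivity)] at k15
    have h5 : (a' + 4) * VV y ≤ (a' + 4) * ((1 + δ) * GG * Real.log y) :=
      mul_le_mul_of_nonneg_left k3.le (by linarith)
    have h6 : (a' + 4) * ((1 + δ) * GG * Real.log y) ≤ δ * (y / 2) := by nlinarith
    have h7 : δ * ((y : ℝ) / 2) ≤ δ * L := mul_le_mul_of_nonneg_left k1 hδ.le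
    linarith

/-- the lower bound at primorials -/
theorem primA (A : ℝ) (hA : 0 < A) (ε : ℝ) (hε : 0 < ε) (hε1 : ε < 1) : ∃ y₀ : ℕ, ∀ y : ℕ, y₀ ≤ y →
    ∀ (Ω : Type*) [MeasurableSpace Ω] (μ : Measure Ω) [IsProbabilityMeasure μ] (S : ℕ → Set Ω),
    (∀ n, MeasurableSet (S n)) → iIndepSet S μ → (∀ n, μ.real (S n) = pr A n) →
    μ.real (Ev S (primorial y)
      ⌊(1 - ε) * (((primorial y).totient : ℝ) * Real.log (primorial y) ^ 2) / (primorial y : ℝ)⌋₊) ≤
      1 / (primorial y : ℝ) ^ 2 := by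
  have hG1 := one_lt_GG
  set δ : ℝ := ε / 100 with hδdef
  have hδ : 0 < δ := by positivity
  have hδ1 : δ ≤ 1 / 100 := by rw [hδdef]; linarith
  set η : ℝ := ε / 4 with hηdef
  have hη : 0 < η := by positivity
  have hη2 : η < 1 / 2 := by rw [hηdef]; linarith
  obtain ⟨d₁, hd₁⟩ := low_prob A hA.le η hη hη2
  obtain ⟨y₁, hy₁⟩ := eventually_atTop.mp (ev_FP A (2 * A) δ hA (by positivity) hδ (by linarith))
  refine ⟨max (max y₁ d₁) 3, fun y hy Ω _ μ _ S hm hi hp => ?_⟩
  have hyy : y₁ ≤ y := (le_max_left _ _).trans ((le_max_left _ _).trans hy)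
  have hyd : d₁ ≤ y := (le_max_right _ _).trans ((le_max_left _ _).trans hy)
  have hy3 : 3 ≤ y := (le_max_right _ _).trans hy
  obtain ⟨f1, f2, f3, f4, f5, f6, f7, f8, f9, f10, f11, f12, f13, f14, f15, f16⟩ := hy₁ y hyy
  set d : ℕ := primorial y with hd
  have hyle : y ≤ d := le_primorial_self
  have hdd1 : d₁ ≤ d := hyd.trans hyle
  have hd3 : 3 ≤ d := hy3.trans hyle
  have hdR : (3 : ℝ) ≤ d := by exact_mod_cast hd3
  have hd0 : (0 : ℝ) < d := by linarith
  set L : ℝ := Real.log (d : ℝ) with hL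
  have hL0 : 0 < L := by linarith
  have hexpL : Real.exp L = d := Real.exp_log hd0
  set F : ℝ := VV y with hF
  have hF1 : 1 ≤ F := one_le_VV y
  have hF0 : 0 < F := by linarith
  have htot : (d.totient : ℝ) = d / F := totient_primorial y
  have hKe : (1 - ε) * ((d.totient : ℝ) * L ^ 2) / d = (1 - ε) * L ^ 2 / F := by
    rw [htot]; field_simp
  rw [hKe]
  have h1ε : 0 < 1 - ε := by linarith
  set K : ℕ := ⌊(1 - ε) * L ^ 2 / F⌋₊ with hK
  have hx0 : 0 ≤ (1 - ε) * L ^ 2 / F := by positivity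
  have hM2 : ((K + 1 : ℕ) : ℝ) ≤ (1 - ε) * L ^ 2 / F + 1 := by
    push_cast
    linarith [Nat.floor_le hx0]
  set M : ℕ := K + 1 with hMdef
  have hM0 : (1 : ℝ) ≤ M := by rw [hMdef]; push_cast; linarith [Nat.cast_nonneg (α := ℝ) K]
  have hM4 : (M : ℝ) ≤ 2 * L ^ 2 + 1 := by
    refine hM2.trans ?_
    have : (1 - ε) * L ^ 2 / F ≤ (1 - ε) * L ^ 2 := div_le_self (by positivity) hF1
    nlinarith [sq_nonneg L]
  have hlogd2 : Real.log ((d : ℝ) / 2) = L - Real.log 2 := Real.log_div hd0.ne' (by norm_num)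
  have hl2 : 0 < Real.log 2 := Real.log_pos (by norm_num)
  have hLl2 : 0 < L - Real.log 2 := by
    by_contra h
    nlinarith
  set W : ℝ := WW A d M with hW
  have hW0 : 0 ≤ W := by
    rw [hW]; unfold WW
    have h1 := one_le_VV ⌊A * Real.log ((M : ℝ) * d)⌋₊
    rw [hlogd2]
    positivity
  have hWle : W ≤ (1 + δ) ^ 2 * GG * Real.log L / L := by
    rw [hW]; unfold WW
    rw [hlogd2]
    have h1 : Real.log ((M : ℝ) * d) ≤ 2 * L := by
      rw [Real.log_mul (by linarith) hd0.ne']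
      have h2 : (M : ℝ) ≤ d := hM4.trans (f13.trans (le_of_eq hexpL))
      have h3 := Real.log_le_log (by linarith) h2
      linarith
    have h2 : VV ⌊A * Real.log ((M : ℝ) * d)⌋₊ ≤ (1 + δ) * GG * Real.log L := by
      refine (VV_mono (Nat.floor_le_floor ?_)).trans f7
      nlinarith
    rw [div_le_div_iff₀ hLl2 hL0]
    calc VV ⌊A * Real.log ((M : ℝ) * d)⌋₊ * L ≤ ((1 + δ) * GG * Real.log L) * ((1 + δ) * (L - Real.log 2)) :=
          mul_le_mul h2 f9 hL0.le (by positivity)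
      _ = _ := by ring
  have hWδ : W ≤ δ / (1 + δ) := hWle.trans f10
  have hW1 : W < 1 := by
    refine lt_of_le_of_lt hWδ ?_
    rw [div_lt_one (by positivity)]; linarith
  have hinv : 1 / (1 - W) ≤ 1 + δ := by
    rw [div_le_iff₀ (by linarith)]
    rw [le_div_iff₀ (by positivity)] at hWδ
    nlinarith
  have h1δ : 0 < 1 - δ := by linarith
  have hWF : W ≤ (1 + δ) ^ 3 / (1 - δ) * (F / L) := by
    refine hWle.trans ?_
    have h1 : GG * Real.log y ≤ F / (1 - δ) := by
      rw [le_div_iff₀ h1δ]; linarith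
    have h2 : GG * Real.log L ≤ (1 + δ) * (F / (1 - δ)) := by
      calc GG * Real.log L ≤ GG * ((1 + δ) * Real.log y) := mul_le_mul_of_nonneg_left f5 (by linarith)
        _ = (1 + δ) * (GG * Real.log y) := by ring
        _ ≤ _ := mul_le_mul_of_nonneg_left h1 (by linarith)
    calc (1 + δ) ^ 2 * GG * Real.log L / L = (1 + δ) ^ 2 * (GG * Real.log L) / L := by ring
      _ ≤ (1 + δ) ^ 2 * ((1 + δ) * (F / (1 - δ))) / L := by
          apply div_le_div_of_nonneg_right _ hL0.le
          exact mul_le_mul_of_nonneg_left h2 (by positivity)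
      _ = _ := by ring
  have hN : ((NQ d.primeFactors 0 M).card : ℝ) ≤ M := by
    exact_mod_cast card_NQ_le_self d.primeFactors 0 M
  have hexp : ((NQ d.primeFactors 0 M).card : ℝ) * W / (1 - W) ≤ (1 - 2 * η) * L := by
    calc ((NQ d.primeFactors 0 M).card : ℝ) * W / (1 - W)
        = ((NQ d.primeFactors 0 M).card : ℝ) * W * (1 / (1 - W)) := by ring
      _ ≤ (((1 - ε) * L ^ 2 / F + 1) * ((1 + δ) ^ 3 / (1 - δ) * (F / L))) * (1 + δ) := by
          apply mul_le_mul _ hinv _ _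
          · exact mul_le_mul (hN.trans hM2) hWF hW0 (by positivity)
          · have : 0 < 1 - W := by linarith
            positivity
          · positivity
      _ = (1 + δ) ^ 4 / (1 - δ) * ((1 - ε) * L + F / L) := by
          field_simp
      _ ≤ (1 + δ) ^ 4 / (1 - δ) * ((1 - ε) * L + δ * L) := by
          apply mul_le_mul_of_nonneg_left _ (by positivity)
          have h1 : F / L ≤ δ * L := by
            rw [div_le_iff₀ hL0]
            have h2 : F ≤ (2 * A + 4) * F := by nlinarith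
            have h3 : F ≤ δ * L := h2.trans f16
            nlinarith
          linarith
      _ ≤ (1 - 2 * η) * L := by
          rw [show (1 + δ) ^ 4 / (1 - δ) * ((1 - ε) * L + δ * L) =
            ((1 + δ) ^ 4 / (1 - δ) * (1 - ε + δ)) * L by ring]
          apply mul_le_mul_of_nonneg_right _ hL0.le
          have h3 : (1 + δ) ^ 4 / (1 - δ) ≤ 1 + 8 * δ := by
            rw [div_le_iff₀ h1δ]
            have e : (1 + 8 * δ) * (1 - δ) - (1 + δ) ^ 4 = δ * (3 - 14 * δ - 4 * δ ^ 2 - δ ^ 3) := by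
              ring
            have h4 : 0 ≤ 3 - 14 * δ - 4 * δ ^ 2 - δ ^ 3 := by
              have a1 : δ ^ 2 ≤ (1 / 100) ^ 2 := pow_le_pow_left₀ hδ.le hδ1 2
              have a2 : δ ^ 3 ≤ (1 / 100) ^ 3 := pow_le_pow_left₀ hδ.le hδ1 3
              norm_num at a1 a2
              linarith
            have h5 := mul_nonneg hδ.le h4
            linarith
          calc (1 + δ) ^ 4 / (1 - δ) * (1 - ε + δ) ≤ (1 + 8 * δ) * (1 - ε + δ) :=
                mul_le_mul_of_nonneg_right h3 (by linarith)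
            _ ≤ 1 - 2 * η := by
                rw [hδdef, hηdef]; nlinarith
  refine hd₁ d hdd1 1 0 K le_rfl ?_ (Nat.coprime_one_left d) ?_ ?_ hW1 hexp Ω μ S hm hi hp
  · push_cast
    exact Real.one_le_rpow (by linarith) hη.le
  · intro p hp hp0
    have := hp.pos
    omega
  · rw [hlogd2]
    push_cast
    positivity

end Pool.Agent.T2H53.GW
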