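import Mathlib
import Pool.Agent.T2H53.GW.PrimA

set_option autoImplicit false

/-! # Primorials: the upper bound -/

namespace Pool.Agent.T2H53.GW

open Finset Filter Topology MeasureTheory ProbabilityTheory

open Pool.Agent.H305R2 (VV VV_tendsto)

lemma card_class_le (p K : ℕ) (T : Finset ℕ) (_hp : 0 < p) (hT : ∀ k ∈ T, k ≤ K)
    (h : ∀ k ∈ T, ∀ l ∈ T, k ≡ l [MOD p]) : T.card ≤ K / p + 1 := by
  have h1 : T.card ≤ (range (K / p + 1)).card := by
    apply card_le_card_of_injOn (fun k => k / p)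
    · intro k hk
      rw [mem_coe, mem_range]
      have := Nat.div_le_div_right (c := p) (hT k hk)
      simp only
      omega
    · intro k hk l hl hkl
      simp only at hkl
      have h2 := h k hk l hl
      unfold Nat.ModEq at h2
      have e1 := Nat.div_add_mod k p
      have e2 := Nat.div_add_mod l p
      rw [← e1, ← e2, hkl, h2]
  rwa [card_range] at h1

/-- sums of reciprocals of primes through the product -/
lemma sum_inv_le {y Z : ℕ} (h : y ≤ Z) :
    1 + ∑ p ∈ (Ioc y Z).filter Nat.Prime, (p : ℝ)⁻¹ ≤ VV Z / VV y := by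
  have hV : 0 < VV y := by linarith [one_le_VV y]
  rw [le_div_iff₀ hV]
  have hsplit : VV Z = (∏ p ∈ (Ioc y Z).filter Nat.Prime, (1 - (p : ℝ)⁻¹)⁻¹) * VV y := by
    unfold VV
    rw [← prod_union]
    · apply prod_congr _ fun _ _ => rfl
      ext p
      simp only [mem_filter, mem_Icc, mem_union, mem_Ioc]
      constructor
      · rintro ⟨⟨h1, h2⟩, h3⟩
        rcases le_or_gt p y with h4 | h4
        · exact Or.inr ⟨⟨h1, h4⟩, h3⟩
        · exact Or.inl ⟨⟨h4, h2⟩, h3⟩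
      · rintro (⟨⟨h1, h2⟩, h3⟩ | ⟨⟨h1, h2⟩, h3⟩)
        · exact ⟨⟨h3.one_le, h2⟩, h3⟩
        · exact ⟨⟨h1, h2.trans h⟩, h3⟩
    · rw [disjoint_left]
      intro p h1 h2
      simp only [mem_filter, mem_Icc, mem_Ioc] at h1 h2
      omega
  rw [hsplit]
  apply mul_le_mul_of_nonneg_right _ hV.le
  have : ∀ T : Finset ℕ, (∀ p ∈ T, p.Prime) → 1 + ∑ p ∈ T, (p : ℝ)⁻¹ ≤ ∏ p ∈ T, (1 - (p : ℝ)⁻¹)⁻¹ := by
    intro T
    induction T using Finset.induction_on with
    | empty => simp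
    | insert a T ha ih =>
      intro hT
      rw [sum_insert ha, prod_insert ha]
      have h1 := ih fun p hp => hT p (mem_insert_of_mem hp)
      have h2 : (2 : ℝ) ≤ a := by exact_mod_cast (hT a (mem_insert_self a T)).two_le
      have h3 : 1 + (a : ℝ)⁻¹ ≤ (1 - (a : ℝ)⁻¹)⁻¹ := by
        have h4 : 0 < (a : ℝ)⁻¹ := by positivity
        have h5 : (a : ℝ)⁻¹ ≤ 1 / 2 := by
          rw [inv_eq_one_div]; exact one_div_le_one_div_of_le (by norm_num) h2
        generalize (a : ℝ)⁻¹ = t at h4 h5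
        rw [← one_div, le_div_iff₀ (by linarith)]
        nlinarith
      have h6 : 0 ≤ ∑ p ∈ T, (p : ℝ)⁻¹ := sum_nonneg fun p _ => by positivity
      have h7 : 0 < (a : ℝ)⁻¹ := by positivity
      calc 1 + ((a : ℝ)⁻¹ + ∑ p ∈ T, (p : ℝ)⁻¹) ≤ (1 + (a : ℝ)⁻¹) * (1 + ∑ p ∈ T, (p : ℝ)⁻¹) := by
            nlinarith
        _ ≤ _ := mul_le_mul h3 h1 (by linarith) (by
            apply inv_nonneg.mpr
            have : (a : ℝ)⁻¹ ≤ 1 := inv_le_one_of_one_le₀ (by linarith)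
            linarith)
  exact this _ fun p hp => (mem_filter.mp hp).2

open scoped Classical in
/-- the `k` for which `a + k d` has a prime factor in `(y, Z]` -/
noncomputable def badK (a d y Z K : ℕ) : Finset ℕ :=
  (Icc 1 K).filter fun k => ∃ p : ℕ, p.Prime ∧ y < p ∧ p ≤ Z ∧ p ∣ a + k * d

lemma card_badK {a d y Z K : ℕ} (hyd : ∀ p : ℕ, p.Prime → y < p → ¬ p ∣ d) (h : y ≤ Z) :
    ((badK a d y Z K).card : ℝ) ≤ K * (VV Z / VV y - 1) + Z := by
  classical
  have h1 : badK a d y Z K ⊆ ((Ioc y Z).filter Nat.Prime).biUnion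
      fun p => (Icc 1 K).filter fun k => p ∣ a + k * d := by
    intro k hk
    rw [badK, mem_filter] at hk
    obtain ⟨h1, p, hp, h2, h3, h4⟩ := hk
    rw [mem_biUnion]
    exact ⟨p, mem_filter.mpr ⟨mem_Ioc.mpr ⟨h2, h3⟩, hp⟩, mem_filter.mpr ⟨h1, h4⟩⟩
  have h2 : ((badK a d y Z K).card : ℝ) ≤ ∑ p ∈ (Ioc y Z).filter Nat.Prime, ((K : ℝ) * (p : ℝ)⁻¹ + 1) := by
    have h3 : (badK a d y Z K).card ≤ ∑ p ∈ (Ioc y Z).filter Nat.Prime, (K / p + 1) := by
      refine (card_le_card h1).trans (card_biUnion_le.trans (sum_le_sum fun p hp => ?_))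
      rw [mem_filter, mem_Ioc] at hp
      apply card_class_le p K _ hp.2.pos
      · intro k hk
        rw [mem_filter, mem_Icc] at hk
        exact hk.1.2
      · intro k hk l hl
        rw [mem_filter] at hk hl
        have hc : Nat.Coprime p d := (Nat.Prime.coprime_iff_not_dvd hp.2).mpr (hyd p hp.2 hp.1.1)
        have h4 : a + k * d ≡ a + l * d [MOD p] :=
          ((Nat.modEq_zero_iff_dvd).mpr hk.2).trans ((Nat.modEq_zero_iff_dvd).mpr hl.2).symm
        have h5 : k * d ≡ l * d [MOD p] := Nat.ModEq.add_left_cancel' a h4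
        exact Nat.ModEq.cancel_right_of_coprime (by simpa using hc) h5
    have h4 : ((badK a d y Z K).card : ℝ) ≤ ((∑ p ∈ (Ioc y Z).filter Nat.Prime, (K / p + 1) : ℕ) : ℝ) := by
      exact_mod_cast h3
    refine h4.trans ?_
    rw [Nat.cast_sum]
    refine sum_le_sum fun p _ => ?_
    push_cast
    have : ((K / p : ℕ) : ℝ) ≤ (K : ℝ) / p := Nat.cast_div_le
    rw [← div_eq_mul_inv]
    linarith
  refine h2.trans ?_
  rw [sum_add_distrib, ← mul_sum, sum_const, nsmul_eq_mul, mul_one]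
  refine add_le_add (mul_le_mul_of_nonneg_left (by linarith [sum_inv_le h]) (Nat.cast_nonneg _)) ?_
  have h3 : ((Ioc y Z).filter Nat.Prime).card ≤ Z := by
    refine (card_filter_le _ _).trans ?_
    rw [Nat.card_Ioc]; omega
  exact_mod_cast h3

/-- lower bound for the sum of the probabilities over a class -/
lemma sum_pr_ge {A v : ℝ} (hA : 0 < A) {a y Z K : ℕ} (had : Nat.Coprime a (primorial y))
    (hZ : A * Real.log (((K + 1 : ℕ) : ℝ) * primorial y) ≤ Z) (hv0 : 0 ≤ v) (hv1 : v ≤ 1)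
    (hyZ : y ≤ Z) (ha : a < primorial y)
    (hv : v * Real.log (((K + 1 : ℕ) : ℝ) * primorial y) ≤ VV ⌊A * Real.log (primorial y)⌋₊) (hy : 2 ≤ y) :
    ((K : ℝ) * (2 - VV Z / VV y) - Z) * v ≤ ∑ n ∈ Bl (primorial y) K a, pr A n := by
  classical
  set d := primorial y with hd
  have hd2 : 2 ≤ d := hy.trans le_primorial_self
  have hdR : (2 : ℝ) ≤ d := by exact_mod_cast hd2
  rw [sum_Bl _ (by omega)]
  have hdiv : ∀ p : ℕ, p.Prime → (p ∣ d ↔ p ≤ y) := fun p hp => hp.dvd_primorial_iff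
  have h1 : ∀ k ∈ Icc 1 K \ badK a d y Z K, v ≤ pr A (a + k * d) := by
    intro k hk
    rw [Finset.mem_sdiff, mem_Icc] at hk
    obtain ⟨⟨hk1, hk2⟩, hk3⟩ := hk
    have hn1 : d ≤ a + k * d := by nlinarith
    have hn2 : a + k * d ≤ (K + 1) * d := by nlinarith
    have hn1R : (d : ℝ) ≤ ((a + k * d : ℕ) : ℝ) := by exact_mod_cast hn1
    have hn2R : ((a + k * d : ℕ) : ℝ) ≤ ((K + 1 : ℕ) : ℝ) * d := by exact_mod_cast hn2
    have hl1 : Real.log d ≤ Real.log ((a + k * d : ℕ) : ℝ) := Real.log_le_log (by linarith) hn1R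
    have hl2 : Real.log ((a + k * d : ℕ) : ℝ) ≤ Real.log (((K + 1 : ℕ) : ℝ) * d) :=
      Real.log_le_log (by linarith) hn2R
    have hl0 : 0 < Real.log d := Real.log_pos (by linarith)
    unfold pr
    rw [if_pos]
    · apply le_min hv1
      rw [le_div_iff₀ (by linarith)]
      refine le_trans (mul_le_mul_of_nonneg_left hl2 hv0) (hv.trans ?_)
      exact VV_mono (Nat.floor_le_floor (mul_le_mul_of_nonneg_left hl1 hA.le))
    · intro p hp hpn hdvd
      have hpZ : (p : ℝ) ≤ Z := hpn.trans ((mul_le_mul_of_nonneg_left hl2 hA.le).trans hZ)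
      have hpZ' : p ≤ Z := by exact_mod_cast hpZ
      rcases le_or_gt p y with h | h
      · have hpd : p ∣ d := (hdiv p hp).mpr h
        have hpa : p ∣ a := (Nat.dvd_add_left (hpd.mul_left k)).mp hdvd
        exact Nat.Prime.not_dvd_one hp (had ▸ Nat.dvd_gcd hpa hpd)
      · apply hk3
        rw [badK, mem_filter, mem_Icc]
        exact ⟨⟨hk1, hk2⟩, p, hp, h, hpZ', hdvd⟩
  have h2 : ((K : ℝ) * (2 - VV Z / VV y) - Z) ≤ ((Icc 1 K \ badK a d y Z K).card : ℝ) := by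
    have h3 := card_badK (a := a) (d := d) (y := y) (Z := Z) (K := K)
      (fun p hp hyp hpd => by have := (hdiv p hp).mp hpd; omega) hyZ
    have h4 : (K : ℝ) ≤ ((Icc 1 K \ badK a d y Z K).card : ℝ) + ((badK a d y Z K).card : ℝ) := by
      have h5 : (Icc 1 K).card ≤ (Icc 1 K \ badK a d y Z K).card + (badK a d y Z K).card := by
        rw [Finset.card_sdiff_add_card]
        exact card_le_card subset_union_left
      rw [Nat.card_Icc] at h5
      have : K ≤ (Icc 1 K \ badK a d y Z K).card + (badK a d y Z K).card := by omega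
      exact_mod_cast this
    linarith
  calc ((K : ℝ) * (2 - VV Z / VV y) - Z) * v ≤ ((Icc 1 K \ badK a d y Z K).card : ℝ) * v :=
        mul_le_mul_of_nonneg_right h2 hv0
    _ = ∑ k ∈ Icc 1 K \ badK a d y Z K, v := by rw [sum_const, nsmul_eq_mul]
    _ ≤ ∑ k ∈ Icc 1 K \ badK a d y Z K, pr A (a + k * d) := sum_le_sum h1
    _ ≤ ∑ k ∈ range (K + 1), pr A (a + k * d) := by
        apply sum_le_sum_of_subset_of_nonneg
        · intro k hk
          rw [Finset.mem_sdiff, mem_Icc] at hk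
          rw [mem_range]; omega
        · intro k _ _
          exact pr_nonneg A _

lemma fin_alg {δ ε L F K Z R : ℝ} (hε : 0 < ε) (hε1 : ε < 1) (hδdef : δ = ε / 100) (hL0 : 0 < L) (hF0 : 0 < F)
    (hKge : (1 - δ) * ((1 + ε) * L ^ 2 / F) ≤ K) (hR : R ≤ 1 + 4 * δ) (hZK : Z ≤ δ * K) (hK0 : 0 ≤ K) :
    (1 + ε / 2) * L ≤ (K * (2 - R) - Z) * ((1 - δ) ^ 2 * F / ((1 + δ) ^ 2 * L)) := by
  have hδ : 0 < δ := by rw [hδdef]; positivity
  have hδ1 : δ ≤ 1 / 100 := by rw [hδdef]; linarith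
  have h1δ : 0 < 1 - δ := by linarith
  have h15 : 0 < 1 - 5 * δ := by linarith
  have hv0 : 0 ≤ (1 - δ) ^ 2 * F / ((1 + δ) ^ 2 * L) := by positivity
  have h3 : (1 - 5 * δ) * K ≤ K * (2 - R) - Z := by
    have h4 : K * R ≤ K * (1 + 4 * δ) := mul_le_mul_of_nonneg_left hR hK0
    nlinarith
  have h5 : ((1 - 5 * δ) * ((1 - δ) * ((1 + ε) * L ^ 2 / F))) * ((1 - δ) ^ 2 * F / ((1 + δ) ^ 2 * L)) =
      (1 - 5 * δ) * (1 - δ) ^ 3 / (1 + δ) ^ 2 * (1 + ε) * L := by
    field_simp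
  have h6 : 1 - 11 * δ ≤ (1 - 5 * δ) * (1 - δ) ^ 3 / (1 + δ) ^ 2 := by
    rw [le_div_iff₀ (by positivity)]
    have h7 : 1 - 3 * δ ≤ (1 - δ) ^ 3 := by nlinarith [sq_nonneg δ]
    have h8 : (1 - 5 * δ) * (1 - 3 * δ) ≤ (1 - 5 * δ) * (1 - δ) ^ 3 :=
      mul_le_mul_of_nonneg_left h7 h15.le
    nlinarith [sq_nonneg δ]
  calc (1 + ε / 2) * L ≤ (1 - 5 * δ) * (1 - δ) ^ 3 / (1 + δ) ^ 2 * (1 + ε) * L := by
        apply mul_le_mul_of_nonneg_right _ hL0.le
        have h7 : (1 - 11 * δ) * (1 + ε) ≤ (1 - 5 * δ) * (1 - δ) ^ 3 / (1 + δ) ^ 2 * (1 + ε) :=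
          mul_le_mul_of_nonneg_right h6 (by linarith)
        refine le_trans ?_ h7
        rw [hδdef]; nlinarith
    _ = ((1 - 5 * δ) * ((1 - δ) * ((1 + ε) * L ^ 2 / F))) * ((1 - δ) ^ 2 * F / ((1 + δ) ^ 2 * L)) := h5.symm
    _ ≤ ((1 - 5 * δ) * K) * ((1 - δ) ^ 2 * F / ((1 + δ) ^ 2 * L)) := by
        apply mul_le_mul_of_nonneg_right _ hv0
        exact mul_le_mul_of_nonneg_left hKge h15.le
    _ ≤ _ := mul_le_mul_of_nonneg_right h3 hv0

theorem primB (A : ℝ) (hA : 0 < A) (ε : ℝ) (hε : 0 < ε) (hε1 : ε < 1) : ∃ y₀ : ℕ, ∀ y : ℕ, y₀ ≤ y →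
    ∀ (Ω : Type*) [MeasurableSpace Ω] (μ : Measure Ω) [IsProbabilityMeasure μ] (S : ℕ → Set Ω),
    (∀ n, MeasurableSet (S n)) → iIndepSet S μ → (∀ n, μ.real (S n) = pr A n) →
    μ.real ((Ev S (primorial y)
      (⌊(1 + ε) * (((primorial y).totient : ℝ) * Real.log (primorial y) ^ 2) / (primorial y : ℝ)⌋₊ - 1))ᶜ) ≤
      Real.exp (-(ε / 4 * y)) := by
  have hG1 := one_lt_GG
  set δ : ℝ := ε / 100 with hδdef
  have hδ : 0 < δ := by positivity
  have hδ1 : δ ≤ 1 / 100 := by rw [hδdef]; linarith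
  set a' : ℝ := max (2 * A) 2 with ha'def
  have ha'A : 2 * A ≤ a' := le_max_left _ _
  have ha'2 : 2 ≤ a' := le_max_right _ _
  obtain ⟨y₁, hy₁⟩ := eventually_atTop.mp (ev_FP A a' δ hA (by linarith) hδ (by linarith))
  refine ⟨max y₁ 3, fun y hy Ω _ μ _ S hm hi hp => ?_⟩
  have hyy : y₁ ≤ y := (le_max_left _ _).trans hy
  have hy3 : 3 ≤ y := (le_max_right _ _).trans hy
  obtain ⟨f1, f2, f3, f4, f5, f6, f7, f8, f9, f10, f11, f12, f13, f14, f15, f16⟩ := hy₁ y hyy
  set d : ℕ := primorial y with hd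
  have hyle : y ≤ d := le_primorial_self
  have hd3 : 3 ≤ d := hy3.trans hyle
  have hdR : (3 : ℝ) ≤ d := by exact_mod_cast hd3
  have hd0 : (0 : ℝ) < d := by linarith
  set L : ℝ := Real.log (d : ℝ) with hL
  have hL0 : 0 < L := by linarith
  have hexpL : Real.exp L = d := Real.exp_log hd0
  set F : ℝ := VV y with hF
  have hF1 : 1 ≤ F := one_le_VV y
  have hF0 : 0 < F := by linarith
  have htot : (d.totient : ℝ) = d / F := totient_primorial y
  have hKe : (1 + ε) * ((d.totient : ℝ) * L ^ 2) / d = (1 + ε) * L ^ 2 / F := by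
    rw [htot]; field_simp
  rw [hKe]
  set M : ℕ := ⌊(1 + ε) * L ^ 2 / F⌋₊ with hM
  have hx0 : 0 ≤ (1 + ε) * L ^ 2 / F := by positivity
  have hFL : F / L ≤ δ / 6 := by
    rw [div_le_iff₀ hL0]
    have : 6 * F ≤ (a' + 4) * F := mul_le_mul_of_nonneg_right (by linarith) hF0.le
    linarith
  have hLF : 6 / δ ≤ L / F := by
    rw [div_le_div_iff₀ hδ hF0]
    rw [div_le_div_iff₀ hL0 (by norm_num)] at hFL
    linarith
  have hMge : (1 + ε) * L ^ 2 / F - 1 ≤ (M : ℝ) := by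
    have := Nat.lt_floor_add_one ((1 + ε) * L ^ 2 / F)
    linarith
  have hMle : (M : ℝ) ≤ (1 + ε) * L ^ 2 / F := Nat.floor_le hx0
  have hbig : 2 * (a' + 4) ≤ δ * ((1 + ε) * L ^ 2 / F) := by
    have h1 : (a' + 4) ≤ δ * (L / F) := by
      rw [← mul_div_assoc, le_div_iff₀ hF0]; exact f16
    have h2 : 1 * (L / F) ≤ (1 + ε) * L ^ 2 / F := by
      rw [← mul_div_assoc]
      apply div_le_div_of_nonneg_right _ hF0.le
      nlinarith
    have hLbig : 2 ≤ L := by
      have h3 : 6 * 1 ≤ δ * L := by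
        calc (6 : ℝ) * 1 ≤ (a' + 4) * F := mul_le_mul (by linarith) hF1 (by norm_num) (by linarith)
          _ ≤ δ * L := f16
      nlinarith
    have h4 : 2 * (L / F) ≤ (1 + ε) * L ^ 2 / F := by
      rw [← mul_div_assoc]
      apply div_le_div_of_nonneg_right _ hF0.le
      nlinarith
    calc 2 * (a' + 4) ≤ 2 * (δ * (L / F)) := by linarith
      _ = δ * (2 * (L / F)) := by ring
      _ ≤ _ := mul_le_mul_of_nonneg_left h4 hδ.le
  have hM1 : 1 ≤ M := by
    have h1 : (1 : ℝ) ≤ (M : ℝ) := by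
      have : 2 ≤ (1 + ε) * L ^ 2 / F := by
        have h2 : 0 ≤ (1 + ε) * L ^ 2 / F := hx0
        nlinarith
      linarith
    exact_mod_cast h1
  set K : ℕ := M - 1 with hK
  have hKM : K + 1 = M := by omega
  have hKR : (K : ℝ) = M - 1 := by
    rw [← hKM]; push_cast; ring
  have hKge : (1 - δ) * ((1 + ε) * L ^ 2 / F) ≤ K := by
    rw [hKR]
    nlinarith
  have hlM : Real.log (M : ℝ) ≤ δ * L := by
    refine le_trans (Real.log_le_log (by exact_mod_cast hM1) (hMle.trans ?_)) f15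
    have : (1 + ε) * L ^ 2 / F ≤ (1 + ε) * L ^ 2 := div_le_self (by positivity) hF1
    nlinarith [sq_nonneg L]
  have hM0 : (0 : ℝ) < M := by exact_mod_cast hM1
  have hlogMd : Real.log (((K + 1 : ℕ) : ℝ) * d) ≤ (1 + δ) * L := by
    rw [hKM, Real.log_mul hM0.ne' hd0.ne']
    linarith
  have hlogMd0 : 0 ≤ Real.log (((K + 1 : ℕ) : ℝ) * d) := by
    rw [hKM]
    apply Real.log_nonneg
    have : (1 : ℝ) ≤ M := by exact_mod_cast hM1
    nlinarith
  set Z : ℕ := ⌊a' * L⌋₊ with hZ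
  have hZle : (Z : ℝ) ≤ a' * L := Nat.floor_le (by positivity)
  have hZge : a' * L - 1 ≤ Z := by
    have := Nat.lt_floor_add_one (a' * L)
    linarith
  have hyZ : y ≤ Z := by
    apply Nat.le_floor
    nlinarith
  have hAZ : A * Real.log (((K + 1 : ℕ) : ℝ) * d) ≤ Z := by
    have h1 : A * Real.log (((K + 1 : ℕ) : ℝ) * d) ≤ A * ((1 + δ) * L) :=
      mul_le_mul_of_nonneg_left hlogMd hA.le
    have h2 : A * ((1 + δ) * L) ≤ a' * L - 1 := by
      have h3 : 6 ≤ δ * L := by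
        calc (6 : ℝ) = 6 * 1 := by ring
          _ ≤ (a' + 4) * F := mul_le_mul (by linarith) hF1 (by norm_num) (by linarith)
          _ ≤ δ * L := f16
      have h5 : A ≤ a' / 2 := by linarith
      have h6 : A * ((1 + δ) * L) ≤ a' / 2 * ((1 + δ) * L) :=
        mul_le_mul_of_nonneg_right h5 (by positivity)
      have h7 : a' / 2 * ((1 + δ) * L) = a' * L / 2 + a' * (δ * L) / 2 := by ring
      have h8 : a' * (δ * L) ≤ a' * L / 2 := by nlinarith
      nlinarith
    linarith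
  have h1δ : 0 < 1 - δ := by linarith
  -- the ratio of the products
  have hratio : VV Z / F ≤ 1 + 4 * δ := by
    rw [div_le_iff₀ hF0]
    have h1 : GG * Real.log y ≤ F / (1 - δ) := by
      rw [le_div_iff₀ h1δ]; linarith
    calc VV Z ≤ (1 + δ) * GG * Real.log L := f7
      _ ≤ (1 + δ) * GG * ((1 + δ) * Real.log y) := mul_le_mul_of_nonneg_left f5 (by positivity)
      _ = (1 + δ) ^ 2 * (GG * Real.log y) := by ring
      _ ≤ (1 + δ) ^ 2 * (F / (1 - δ)) := mul_le_mul_of_nonneg_left h1 (by positivity)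
      _ = ((1 + δ) ^ 2 / (1 - δ)) * F := by ring
      _ ≤ (1 + 4 * δ) * F := by
          apply mul_le_mul_of_nonneg_right _ hF0.le
          rw [div_le_iff₀ h1δ]
          nlinarith
  -- the value
  set v : ℝ := (1 - δ) ^ 2 * F / ((1 + δ) ^ 2 * L) with hv
  have hv0 : 0 ≤ v := by positivity
  have hv1 : v ≤ 1 := by
    rw [hv, div_le_one (by positivity)]
    have h1 : F ≤ L := by
      rw [div_le_iff₀ hL0] at hFL
      nlinarith
    calc (1 - δ) ^ 2 * F ≤ 1 * F := mul_le_mul_of_nonneg_right (by nlinarith) hF0.le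
      _ = F := one_mul F
      _ ≤ L := h1
      _ ≤ (1 + δ) ^ 2 * L := by nlinarith
  have hvv : v * Real.log (((K + 1 : ℕ) : ℝ) * d) ≤ VV ⌊A * L⌋₊ := by
    have h1 : (1 - δ) ^ 2 / (1 + δ) * F ≤ VV ⌊A * L⌋₊ := by
      calc (1 - δ) ^ 2 / (1 + δ) * F ≤ (1 - δ) ^ 2 / (1 + δ) * ((1 + δ) * GG * Real.log y) :=
            mul_le_mul_of_nonneg_left f4 (by positivity)
        _ = (1 - δ) * GG * ((1 - δ) * Real.log y) := by field_simp
        _ ≤ (1 - δ) * GG * Real.log L := mul_le_mul_of_nonneg_left f6 (by positivity)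
        _ ≤ _ := f8
    calc v * Real.log (((K + 1 : ℕ) : ℝ) * d) ≤ v * ((1 + δ) * L) := mul_le_mul_of_nonneg_left hlogMd hv0
      _ = (1 - δ) ^ 2 / (1 + δ) * F := by rw [hv]; field_simp
      _ ≤ _ := h1
  -- the sum over a class
  have hsum : ∀ a ∈ (range d).filter (fun a => Nat.Coprime a d), (1 + ε / 2) * L ≤
      ∑ n ∈ Bl d K a, μ.real (S n) := by
    intro a ha
    rw [mem_filter, mem_range] at ha
    have h1 := sum_pr_ge hA ha.2 hAZ hv0 hv1 hyZ ha.1 hvv (by omega)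
    have h2 : ∑ n ∈ Bl d K a, μ.real (S n) = ∑ n ∈ Bl d K a, pr A n := sum_congr rfl fun n _ => hp n
    rw [h2]
    refine le_trans ?_ h1
    have hZK : (Z : ℝ) ≤ δ * K := by
      have h3 : a' * L ≤ δ * ((1 - δ) * ((1 + ε) * L ^ 2 / F)) := by
        have h4 : a' ≤ δ * L / F := by
          rw [le_div_iff₀ hF0]
          have : a' * F ≤ (a' + 4) * F := mul_le_mul_of_nonneg_right (by linarith) hF0.le
          linarith
        have h6 : 1 ≤ (1 - δ) * (1 + ε) := by rw [hδdef]; nlinarith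
        have h7 : a' * L ≤ δ * L / F * L := mul_le_mul_of_nonneg_right h4 hL0.le
        have h8 : δ * ((1 - δ) * ((1 + ε) * L ^ 2 / F)) = ((1 - δ) * (1 + ε)) * (δ * L / F * L) := by
          ring
        rw [h8]
        have h9 : 0 ≤ δ * L / F * L := by positivity
        nlinarith
      exact hZle.trans (h3.trans (mul_le_mul_of_nonneg_left hKge hδ.le))
    exact fin_alg hε hε1 hδdef hL0 hF0 hKge hratio hZK (Nat.cast_nonneg K)
  have hmain := some_empty_le hm hi ((range d).filter (fun a => Nat.Coprime a d)) (Bl d K) _ hsum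
  have hsub : (Ev S d K)ᶜ ⊆ ⋃ a ∈ (range d).filter (fun a => Nat.Coprime a d), (HF S (Bl d K a))ᶜ := by
    intro ω hω
    unfold Ev at hω
    simp only [Set.mem_compl_iff, Set.mem_ofPred_eq, not_forall] at hω
    obtain ⟨a, ha1, ha2, ha3, ha4⟩ := hω
    simp only [Set.mem_iUnion]
    refine ⟨a, mem_filter.mpr ⟨mem_range.mpr ha2, ha3⟩, ?_⟩
    intro hc
    apply ha4
    unfold HF at hc
    simp only [Set.mem_iUnion] at hc
    obtain ⟨n, hn, hn2⟩ := hc
    rw [Bl, mem_image] at hn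
    obtain ⟨k, hk, rfl⟩ := hn
    rw [mem_range] at hk
    refine ⟨a + k * d, ?_, ?_, hn2⟩
    · rw [Nat.add_mul_mod_self_right, Nat.mod_eq_of_lt ha2]
    · rw [Nat.add_mul_div_right _ _ (by omega), Nat.div_eq_of_lt ha2]
      omega
  refine (measureReal_mono hsub (measure_ne_top _ _)).trans (hmain.trans ?_)
  have hcard : (((range d).filter (fun a => Nat.Coprime a d)).card : ℝ) ≤ Real.exp L := by
    rw [hexpL]
    have h1 := card_filter_le (range d) (fun a => Nat.Coprime a d)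
    rw [card_range] at h1
    exact_mod_cast h1
  calc (((range d).filter (fun a => Nat.Coprime a d)).card : ℝ) * Real.exp (-((1 + ε / 2) * L))
      ≤ Real.exp L * Real.exp (-((1 + ε / 2) * L)) :=
        mul_le_mul_of_nonneg_right hcard (Real.exp_pos _).le
    _ = Real.exp (-(ε / 2 * L)) := by rw [← Real.exp_add]; congr 1; ring
    _ ≤ Real.exp (-(ε / 4 * y)) := by
        apply Real.exp_le_exp.mpr
        nlinarith

end Pool.Agent.T2H53.GW
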