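import Mathlib
import Pool.Agent.T2H53.GW.PrimB
import Pool.Agent.T2H53.GW.Inf

set_option autoImplicit false

/-! # Assembly -/

namespace Pool.Agent.T2H53.GW

open Finset Filter Topology MeasureTheory ProbabilityTheory

open Pool.Agent.H305R2 (VV VV_tendsto)

/-- largest least element -/
noncomputable def PP (R : Set ℕ) (d : ℕ) : ℕ :=
  ((Finset.range d).filter (fun a => Nat.Coprime a d)).sup (fun a => sInf {n : ℕ | n ∈ R ∧ n % d = a})

noncomputable def ratio (R : Set ℕ) (d : ℕ) : ℝ := (PP R d : ℝ) / ((d.totient : ℝ) * Real.log d ^ 2)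

section

variable {Ω : Type*} {S : ℕ → Set Ω}

lemma ratio_gt {ω : Ω} {d : ℕ} (hd : 3 ≤ d) (hne : ∀ a : ℕ, Nat.Coprime a d → ∃ n : ℕ, n % d = a % d ∧ ω ∈ S n)
    {c : ℝ} (h : ω ∉ Ev S d ⌊c * ((d.totient : ℝ) * Real.log d ^ 2) / d⌋₊) :
    c < ratio {n | ω ∈ S n} d := by
  have hdR : (3 : ℝ) ≤ d := by exact_mod_cast hd
  have hd0 : (0 : ℝ) < d := by linarith
  have htot : (0 : ℝ) < (d.totient : ℝ) := by exact_mod_cast Nat.totient_pos.mpr (by omega)
  have hlog : 0 < Real.log (d : ℝ) := Real.log_pos (by linarith)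
  unfold Ev at h
  simp only [Set.mem_ofPred_eq, not_forall] at h
  obtain ⟨a, ha1, ha2, ha3, ha4⟩ := h
  obtain ⟨m, hm1, hm2⟩ := hne a ha3
  rw [Nat.mod_eq_of_lt ha2] at hm1
  have hnes : ({n : ℕ | n ∈ {n | ω ∈ S n} ∧ n % d = a}).Nonempty := ⟨m, hm2, hm1⟩
  have hmem := Nat.sInf_mem hnes
  set n0 := sInf {n : ℕ | n ∈ {n | ω ∈ S n} ∧ n % d = a} with hn0
  have h1 : n0 ≤ PP {n | ω ∈ S n} d := by
    unfold PP
    exact Finset.le_sup (f := fun a => sInf {n : ℕ | n ∈ {n | ω ∈ S n} ∧ n % d = a})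
      (mem_filter.mpr ⟨mem_range.mpr ha2, ha3⟩)
  have h2 : ¬ n0 / d ≤ ⌊c * ((d.totient : ℝ) * Real.log d ^ 2) / d⌋₊ := fun hc =>
    ha4 ⟨n0, hmem.2, hc, hmem.1⟩
  have h3 : c * ((d.totient : ℝ) * Real.log d ^ 2) / d < ((n0 / d : ℕ) : ℝ) := Nat.lt_of_floor_lt (by omega)
  have h4 : ((n0 / d : ℕ) : ℝ) ≤ (n0 : ℝ) / d := Nat.cast_div_le
  have h5 : c * ((d.totient : ℝ) * Real.log d ^ 2) < n0 := by
    have := lt_of_lt_of_le h3 h4
    rwa [div_lt_div_iff_of_pos_right hd0] at this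
  unfold ratio
  rw [lt_div_iff₀ (by positivity)]
  have h6 : (n0 : ℝ) ≤ (PP {n | ω ∈ S n} d : ℝ) := by exact_mod_cast h1
  linarith

lemma ratio_le {ω : Ω} {d M : ℕ} (hd : 3 ≤ d) {x : ℝ} (hM : (M : ℝ) ≤ x * ((d.totient : ℝ) * Real.log d ^ 2) / d)
    (hM1 : 1 ≤ M) (h : ω ∈ Ev S d (M - 1)) : ratio {n | ω ∈ S n} d ≤ x := by
  have hdR : (3 : ℝ) ≤ d := by exact_mod_cast hd
  have hd0 : (0 : ℝ) < d := by linarith
  have htot : (0 : ℝ) < (d.totient : ℝ) := by exact_mod_cast Nat.totient_pos.mpr (by omega)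
  have hlog : 0 < Real.log (d : ℝ) := Real.log_pos (by linarith)
  have h1 : PP {n | ω ∈ S n} d ≤ M * d := by
    unfold PP
    apply Finset.sup_le
    intro a ha
    rw [mem_filter, mem_range] at ha
    have ha1 : 1 ≤ a := by
      rcases Nat.eq_zero_or_pos a with h0 | h0
      · rw [h0, Nat.coprime_zero_left] at ha
        omega
      · exact h0
    obtain ⟨n, hn1, hn2, hn3⟩ := h a ha1 ha.1 ha.2
    have h2 : sInf {n : ℕ | n ∈ {n | ω ∈ S n} ∧ n % d = a} ≤ n := Nat.sInf_le ⟨hn3, hn1⟩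
    refine h2.trans ?_
    have h3 : n < (n / d + 1) * d := by
      have := Nat.lt_div_mul_add (a := n) (b := d) (by omega)
      linarith
    calc n ≤ (n / d + 1) * d := h3.le
      _ ≤ M * d := Nat.mul_le_mul_right _ (by omega)
  unfold ratio
  rw [div_le_iff₀ (by positivity)]
  have h2 : (PP {n | ω ∈ S n} d : ℝ) ≤ M * d := by exact_mod_cast h1
  rw [le_div_iff₀ hd0] at hM
  linarith

end

lemma one_le_floor (ε : ℝ) (hε : 0 < ε) : ∀ᶠ y : ℕ in atTop,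
    1 ≤ ⌊(1 + ε) * (((primorial y).totient : ℝ) * Real.log (primorial y) ^ 2) / (primorial y : ℝ)⌋₊ := by
  filter_upwards [ev_FP 1 2 1 one_pos (by norm_num) one_pos le_rfl] with y hy
  obtain ⟨f1, f2, f3, f4, f5, f6, f7, f8, f9, f10, f11, f12, f13, f14, f15, f16⟩ := hy
  have hF1 := one_le_VV y
  have hF0 : 0 < VV y := by linarith
  have hd0 : (0 : ℝ) < (primorial y : ℝ) := by exact_mod_cast primorial_pos y
  rw [totient_primorial]
  have e : (1 + ε) * ((primorial y : ℝ) / VV y * Real.log (primorial y) ^ 2) / (primorial y : ℝ) =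
      (1 + ε) * (Real.log (primorial y) ^ 2 / VV y) := by field_simp
  rw [e]
  apply Nat.le_floor
  push_cast
  have h1 : 1 ≤ Real.log (primorial y) ^ 2 / VV y := by
    rw [le_div_iff₀ hF0]
    nlinarith
  nlinarith

variable {Ω : Type*} [MeasurableSpace Ω] {μ : Measure Ω} [IsProbabilityMeasure μ] {S : ℕ → Set Ω}

/-- every reduced class contains a point -/
lemma all_classes (A : ℝ) (hm : ∀ n, MeasurableSet (S n)) (hi : iIndepSet S μ)
    (hp : ∀ n, μ.real (S n) = pr A n) :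
    ∀ᵐ ω ∂μ, ∀ d a : ℕ, 0 < d → Nat.Coprime a d → ∃ n : ℕ, n % d = a % d ∧ ω ∈ S n := by
  rw [ae_all_iff]
  intro d
  rw [ae_all_iff]
  intro a
  by_cases hd : 0 < d
  · by_cases ha : Nat.Coprime a d
    · filter_upwards [class_nonempty A d a hd ha hm hi hp] with ω hω _ _
      exact hω
    · exact Filter.Eventually.of_forall fun ω _ h => absurd h ha
  · exact Filter.Eventually.of_forall fun ω h => absurd h hd

/-- moduli with few small prime factors -/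
lemma main_low (A : ℝ) (hA : 0 < A) (hm : ∀ n, MeasurableSet (S n)) (hi : iIndepSet S μ)
    (hp : ∀ n, μ.real (S n) = pr A n) :
    ∀ᵐ ω ∂μ, ∀ ε : ℝ, 0 < ε → ∀ B : ℝ, ∀ᶠ d : ℕ in atTop,
      ∑ p ∈ d.primeFactors, (Real.sqrt p)⁻¹ ≤ B → 2 / GG - ε < ratio {n | ω ∈ S n} d := by
  classical
  have h1 : ∀ k b : ℕ, ∀ᵐ ω ∂μ, ∀ᶠ d : ℕ in atTop,
      ω ∉ (if ∑ p ∈ d.primeFactors, (Real.sqrt p)⁻¹ ≤ b then
        Ev S d ⌊(2 / GG - 1 / ((k : ℝ) + 2)) * ((d.totient : ℝ) * Real.log d ^ 2) / d⌋₊ else ∅) := by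
    intro k b
    have hε : (0 : ℝ) < 1 / ((k : ℝ) + 2) := by positivity
    have hε1 : 1 / ((k : ℝ) + 2) < 1 := by
      rw [div_lt_one (by positivity)]
      have : (0 : ℝ) ≤ k := Nat.cast_nonneg k
      linarith
    obtain ⟨d₀, hd₀⟩ := lowB A hA (1 / ((k : ℝ) + 2)) b hε hε1
    refine bc _ d₀ (fun d => 1 / (d : ℝ) ^ 2) (Real.summable_one_div_nat_pow.mpr (by norm_num)) ?_
    intro d hd
    split_ifs with h
    · exact hd₀ d hd h Ω μ S hm hi hp
    · simp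
  have h2 := all_classes A hm hi hp
  have h3 : ∀ᵐ ω ∂μ, ∀ k b : ℕ, ∀ᶠ d : ℕ in atTop,
      ω ∉ (if ∑ p ∈ d.primeFactors, (Real.sqrt p)⁻¹ ≤ b then
        Ev S d ⌊(2 / GG - 1 / ((k : ℝ) + 2)) * ((d.totient : ℝ) * Real.log d ^ 2) / d⌋₊ else ∅) := by
    rw [ae_all_iff]
    intro k
    rw [ae_all_iff]
    intro b
    exact h1 k b
  filter_upwards [h2, h3] with ω hω2 hω3 ε hε B
  obtain ⟨b, hb⟩ := exists_nat_ge B
  obtain ⟨k, hk⟩ := exists_nat_gt (1 / ε)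
  filter_upwards [hω3 k b, eventually_ge_atTop 3] with d hd hd3 hdB
  rw [if_pos (hdB.trans hb)] at hd
  have h5 := ratio_gt hd3 (fun a ha => hω2 d a (by omega) ha) hd
  have h6 : 1 / ((k : ℝ) + 2) ≤ ε := by
    rw [div_le_iff₀ (by positivity)]
    rw [div_lt_iff₀ hε] at hk
    nlinarith
  linarith

/-- the density statement, deterministic part -/
lemma density_of {f : ℕ → ℝ} {c : ℝ} (h : ∀ B : ℝ, ∀ᶠ d : ℕ in atTop,
    ∑ p ∈ d.primeFactors, (Real.sqrt p)⁻¹ ≤ B → c < f d) :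
    Tendsto (fun x : ℕ => (((Icc 1 x).filter fun d : ℕ => f d ≤ c).card : ℝ) / x) atTop (𝓝 0) := by
  classical
  obtain ⟨C, hC, hbad⟩ := card_bad_le
  rw [Metric.tendsto_atTop]
  intro e he
  set B : ℝ := 4 * C / e with hB
  have hB0 : 0 < B := by positivity
  obtain ⟨d₀, hd₀⟩ := eventually_atTop.mp (h B)
  obtain ⟨x₀, hx₀⟩ := exists_nat_gt (4 * d₀ / e)
  refine ⟨max x₀ 1, fun x hx => ?_⟩
  have hx1 : x₀ ≤ x := (le_max_left _ _).trans hx
  have hx2 : 1 ≤ x := (le_max_right _ _).trans hx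
  have hxR : (1 : ℝ) ≤ x := by exact_mod_cast hx2
  have hx0 : (0 : ℝ) < x := by linarith
  have h1 : ((Icc 1 x).filter fun d : ℕ => f d ≤ c) ⊆
      range d₀ ∪ (Icc 1 x).filter fun d : ℕ => B < ∑ p ∈ d.primeFactors, (Real.sqrt p)⁻¹ := by
    intro d hd
    rw [mem_filter] at hd
    rw [mem_union, mem_range, mem_filter]
    by_contra hc
    push Not at hc
    obtain ⟨hc1, hc2⟩ := hc
    have h2 := hd₀ d hc1 (hc2 hd.1)
    linarith [hd.2]
  have h2 : (((Icc 1 x).filter fun d : ℕ => f d ≤ c).card : ℝ) ≤ d₀ + C * x / B := by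
    have h3 := (card_le_card h1).trans (card_union_le _ _)
    rw [card_range] at h3
    have h4 : (((Icc 1 x).filter fun d : ℕ => f d ≤ c).card : ℝ) ≤
      d₀ + (((Icc 1 x).filter fun d : ℕ => B < ∑ p ∈ d.primeFactors, (Real.sqrt p)⁻¹).card : ℝ) := by
      exact_mod_cast h3
    linarith [hbad B x hB0]
  rw [Real.dist_eq, sub_zero, abs_of_nonneg (by positivity), div_lt_iff₀ hx0]
  have h3 : C * x / B = e * x / 4 := by rw [hB]; field_simp
  have h4 : (d₀ : ℝ) < e * x / 4 := by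
    have : 4 * (d₀ : ℝ) / e < x := lt_of_lt_of_le hx₀ (by exact_mod_cast hx1)
    rw [div_lt_iff₀ he] at this
    linarith
  nlinarith

/-- primorials -/
lemma main_prim (A : ℝ) (hA : 0 < A) (hm : ∀ n, MeasurableSet (S n)) (hi : iIndepSet S μ)
    (hp : ∀ n, μ.real (S n) = pr A n) :
    ∀ᵐ ω ∂μ, Tendsto (fun y : ℕ => ratio {n | ω ∈ S n} (primorial y)) atTop (𝓝 1) := by
  have hεk : ∀ k : ℕ, (0 : ℝ) < 1 / ((k : ℝ) + 2) ∧ 1 / ((k : ℝ) + 2) < 1 := by
    intro k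
    refine ⟨by positivity, ?_⟩
    rw [div_lt_one (by positivity)]
    have : (0 : ℝ) ≤ k := Nat.cast_nonneg k
    linarith
  have h1 : ∀ k : ℕ, ∀ᵐ ω ∂μ, ∀ᶠ y : ℕ in atTop,
      ω ∉ Ev S (primorial y) ⌊(1 - 1 / ((k : ℝ) + 2)) * (((primorial y).totient : ℝ) *
        Real.log (primorial y) ^ 2) / (primorial y : ℝ)⌋₊ := by
    intro k
    obtain ⟨y₀, hy₀⟩ := primA A hA _ (hεk k).1 (hεk k).2
    refine bc _ (max y₀ 1) (fun y => 1 / (y : ℝ) ^ 2) (Real.summable_one_div_nat_pow.mpr (by norm_num)) ?_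
    intro y hy
    have hy1 : (1 : ℝ) ≤ y := by exact_mod_cast (le_max_right _ _).trans hy
    refine (hy₀ y ((le_max_left _ _).trans hy) Ω μ S hm hi hp).trans ?_
    apply one_div_le_one_div_of_le (by positivity)
    have : (y : ℝ) ≤ (primorial y : ℝ) := by exact_mod_cast le_primorial_self
    exact pow_le_pow_left₀ (by linarith) this 2
  have h2 : ∀ k : ℕ, ∀ᵐ ω ∂μ, ∀ᶠ y : ℕ in atTop,
      ω ∉ (Ev S (primorial y) (⌊(1 + 1 / ((k : ℝ) + 2)) * (((primorial y).totient : ℝ) *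
        Real.log (primorial y) ^ 2) / (primorial y : ℝ)⌋₊ - 1))ᶜ := by
    intro k
    obtain ⟨y₀, hy₀⟩ := primB A hA _ (hεk k).1 (hεk k).2
    refine bc _ y₀ (fun y => Real.exp (-(1 / ((k : ℝ) + 2) / 4 * y))) ?_ ?_
    · have h3 := Real.summable_exp_nat_mul_iff.mpr (show -(1 / ((k : ℝ) + 2) / 4) < 0 by
        have := (hεk k).1
        linarith)
      refine h3.congr fun n => ?_
      congr 1; ring
    · intro y hy
      exact hy₀ y hy Ω μ S hm hi hp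
  have h3 := all_classes A hm hi hp
  have h1' := ae_all_iff.mpr h1
  have h2' := ae_all_iff.mpr h2
  filter_upwards [h1', h2', h3] with ω g1 g2 g3
  rw [Metric.tendsto_atTop]
  intro e he
  obtain ⟨k, hk⟩ := exists_nat_gt (1 / e)
  have hke : 1 / ((k : ℝ) + 2) < e := by
    rw [div_lt_iff₀ (by positivity)]
    rw [div_lt_iff₀ he] at hk
    nlinarith
  obtain ⟨Y, hY⟩ := eventually_atTop.mp ((g1 k).and ((g2 k).and
    ((one_le_floor (1 / ((k : ℝ) + 2)) (hεk k).1).and (eventually_ge_atTop 3))))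
  refine ⟨Y, fun y hy => ?_⟩
  obtain ⟨k1, k2, k3, k4⟩ := hY y hy
  have hd3 : 3 ≤ primorial y := k4.trans le_primorial_self
  have l1 := ratio_gt hd3 (fun a ha => g3 (primorial y) a (primorial_pos y) ha) k1
  have k2' : ω ∈ Ev S (primorial y) (⌊(1 + 1 / ((k : ℝ) + 2)) * (((primorial y).totient : ℝ) *
        Real.log (primorial y) ^ 2) / (primorial y : ℝ)⌋₊ - 1) := by
    simpa using k2
  have l2 := ratio_le hd3 (x := 1 + 1 / ((k : ℝ) + 2)) (Nat.floor_le (by positivity)) k3 k2'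
  rw [Real.dist_eq, abs_lt]
  constructor <;> linarith

end Pool.Agent.T2H53.GW
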